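import Pool.Agent.Lib.FBC.X4.Tw

/-!
Attraction in the forward tree from attraction in the backward tree.
-/

namespace Pool.Agent.Lib.FBC.X4

open Forest Filter

theorem stAP (hNOL : St_NOL) : St_AP := by
  intro G _ d d' F X T T' g n e r c L r₀ hr l₀ H N
  have hd := F.surj
  obtain ⟨N', hN⟩ := hNOL G d d' F X T T' g n e r c L N
  obtain ⟨C₀, hC₀⟩ := hh' hd X
  obtain ⟨j₀, hj⟩ := H (N + C₀) N'
  refine ⟨j₀, fun j jj y ly hy => ?_⟩
  have dg' : dg d g = -n := by
    have h1 := L.deg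
    have h2 := X.neg g⁻¹
    have h3 : dg d g⁻¹ = -dg d g := by simp [dg]
    omega
  obtain ⟨C, hC⟩ := round' hd X g n j
  have lh : ∀ z, X.P.lev z = 0 → X.M.lev (X.h'.f z) = 0 := fun z h => by
    rw [X.lev_h', h, neg_zero]
  choose p hp using fun i : Bool => (h'_qm hd X).far y (r i N').src
    ((L.lev_src i N').trans (lh y ly).symm) C
  have key : ∀ z, X.s.LegalP y z → max (p true) (p false) ≤ X.P.dist y z →
      tw X.s g n j z ∈ (r₀ N).H := by
    intro z hz dz
    have lz : X.P.lev z = 0 := hz.1.symm.trans ly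
    have lf : X.P.lev (tw X.s g n j z) = 0 := (lev_tw dg' j z).trans lz
    by_contra t
    obtain ⟨i, hi⟩ := hj j jj (X.h'.f (tw X.s g n j z)) (lh _ lf) fun t' =>
      t (hr.near t' (hC₀ _).1 (hC₀ _).2)
    have h1 : X.h'.f z ∈ (r i N').rv.H :=
      mem_rv_H_of_not ((lh z lz).trans (L.lev_src i N').symm) (hN y z i hz ly (hy i))
    have h2 := dist_src_le hi h1
    have h3 := hp i z hz.1 (le_trans (by cases i <;> simp) dz)
    have h4 := (hC z).2
    rw [Forest.dist_comm] at h2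
    omega
  obtain ⟨D, rfl⟩ := exists_dir_at hd T.ne y
  obtain ⟨x, z, h1, h2, h3, h4⟩ := T.legal_ext D (max (p true) (p false))
  have b := h2.btw_src
  have h5 := h2.dist_tgt
  refine (tw_btw h1 b j).mem_H (key x ?_ ?_) (key z ?_ ?_)
  · exact h1.sa_sub b (btw_left h1.1)
  · rwa [Forest.dist_comm]
  · exact h1.sa_sub b (btw_right h1.1)
  · omega

end Pool.Agent.Lib.FBC.X4
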