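import Pool.Agent.Lib.FBC.X4.Tw
import Pool.Agent.Lib.FBC.T2.Run

/-!
Non-attracted ultrafilters are ends with illegal rays of infinite coned-off length.
-/

namespace Pool.Agent.Lib.FBC.X4

open Forest Filter

variable {G : Type} [Group G] {d : Dg G} {Y : Forest d} {s : Flow Y} {γ : G} {n c : ℕ}
  {e : Y.Dir} {r : Bool → ℕ → Y.Dir} {U : Ultrafilter Y.V}

lemma lam_end (hd : Function.Surjective d) (L : Leaf s γ n e r c) (h : Lam s γ n r c U)
    (v : Y.V) (hv : Y.lev v = 0) : ∃ k, ∀ᶠ z in (U : Filter Y.V), k ∈ sep v z := by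
  obtain ⟨j, i, hj⟩ := L.attr v hv
  have fin := (tw_qm hd s γ n j).fin (r i c).1
  have key : (⋃ k ∈ {k : Y.E | (r i c).1.sd (tw s γ n j (k.ed false)) ≠
      (r i c).1.sd (tw s γ n j (k.ed true))}, {z | k ∈ sep v z}) ∈ U := by
    refine Filter.mem_of_superset (h j) fun z t => ?_
    obtain ⟨k, k1, k2⟩ := exists_cross (fun a => (r i c).1.sd (tw s γ n j a)) (hv.trans t.1.symm)
      fun q => t.2 i ⟨by rw [L.lev_tw, t.1, L.lev_src], q.symm.trans hj.2⟩
    exact Set.mem_biUnion k2 k1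
  obtain ⟨k, _, hk⟩ := (Ultrafilter.finite_biUnion_mem_iff fin).1 key
  exact ⟨k, hk⟩

lemma lam_not (h : Lam s γ n r c U) {D : Y.Dir} (hD : ∀ᶠ z in (U : Filter Y.V), z ∈ D.H)
    {j : ℕ} {i : Bool} (t : ∀ z ∈ D.H, tw s γ n j z ∈ (r i c).H) : False :=
  let ⟨z, t1, t2⟩ := ((h j).and hD).exists; t1.2 i (t z t2)

lemma cls_tw (T : s.TT) {a b : Y.V} (h : s.Cls a b) (j : ℕ) :
    s.Cls (tw s γ n j a) (tw s γ n j b) := T2.cls_smul _ (T2.cls_it T h _)

theorem stLAM (h1 : St_S1) (h2 : St_RAY) : St_LAM := by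
  intro G _ d hd Y s hN γ n e r c L
  obtain ⟨K, hK⟩ := h1 G d hd Y s hN.toTT γ n e r c L
  obtain ⟨N, -, hO, -⟩ := T2.stOV G d hd Y s hN
  refine ⟨K, fun U hU => ?_⟩
  obtain ⟨ρ, r1, r2, r3⟩ := exists_ray (U : Filter Y.V) id e.src fun v hv =>
    lam_end hd.surj L hU v (hv.trans L.lev)
  refine ⟨ρ, r1, r2, r3, fun p q x y hx hy l => not_le.1 fun t => ?_, fun R p => ?_⟩
  · obtain ⟨a, -, -, rfl⟩ := r1.on_seg' hx
    obtain ⟨b, -, -, rfl⟩ := r1.on_seg' hy
    have key : ∀ a b, a ≤ b → s.LegalP (ρ a).src (ρ b).src →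
        K ≤ Y.dist (ρ a).src (ρ b).src → False := fun a b ab l t => by
      obtain ⟨j, i, hj⟩ := hK _ _ l t (r2 ▸ r1.btw3 (Nat.zero_le _) ab)
      exact lam_not hU (r3 b) fun z hz => hj z (r1.btw ab hz)
    rcases le_total a b with ab | ab
    · exact key a b ab l t
    · exact key b a ab (T2.lp_symm l) (by rwa [Forest.dist_comm])
  · by_contra hc
    obtain ⟨w, hw⟩ := h2 G d hd Y s hN ρ R p r1 fun q hq => by_contra fun t => hc ⟨q, hq, t⟩
    have lw : Y.lev w = 0 := by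
      obtain ⟨w', t1, t2⟩ := hw 0
      rw [T2.cls_lev t2, r1.lev_H t1, r2, L.lev]
    obtain ⟨j, i, hj⟩ := L.attr' lw (c + N)
    obtain ⟨m, hm⟩ := (tw_qm hd.surj s γ n j).cont r1 (r i c) fun m => by
      obtain ⟨w', t1, t2⟩ := hw m
      refine ⟨w', t1, by_contra fun t => ?_⟩
      have k := cls_tw (γ := γ) (n := n) hN.toTT t2 j
      have t' := mem_rv_H_of_not (by rw [← T2.cls_lev k, L.lev_H hj, L.lev_src]) t
      have := hO _ _ k _ _ ((L.ray i).btw_of_cross t' hj le_rfl (Nat.le_add_right _ _)).symm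
        ((L.ray i).btw_of_cross t' hj (Nat.le_add_right _ _) le_rfl).symm (L.legal_ray i _ _)
      rw [(L.ray i).dist_add] at this
      exact lt_irrefl _ this
    exact lam_not hU (r3 m) hm

end Pool.Agent.Lib.FBC.X4
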