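import Pool.Agent.Lib.FBC.X4.Tw
import Pool.Agent.Lib.FBC.T2.Stab

/-!
The attracting leaf of a generic periodic dart.
-/

namespace Pool.Agent.Lib.FBC.X4

open Forest

variable {G : Type} [Group G] {d : Dg G} {Y : Forest d} {s : Flow Y} {γ : G} {n : ℕ}
  {e : Y.Dir} {r r' : ℕ → Y.Dir} {m m' : ℕ → ℕ} {x y u : Y.V}

lemma lf_ne (T : s.TT) (h : s.LegalP x y) (hne : x ≠ y) (k : ℕ) :
    tw s γ n k x ≠ tw s γ n k y := fun t =>
  T2.exp_ne T h hne (k * n) (MulAction.injective _ t)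

lemma lf_st_smul {ρ : ℕ} {p z q : ℕ → Y.V} (h : s.St ρ x y p z q) (g : G) :
    s.St ρ (g • x) (g • y) (fun i => g • p i) (fun i => g • z i) (fun i => g • q i) :=
  ⟨fun i hi => ⟨T2.inp_smul g (h.1 i hi).1, (h.1 i hi).2.1.smul g, (h.1 i hi).2.2.smul g⟩,
    fun i hi => ⟨(h.2.1 i hi).1.smul g, T2.lp_smul g (h.2.1 i hi).2⟩,
    fun t => T2.lp_smul g (h.2.2.1 t),
    fun t => ⟨T2.lp_smul g (h.2.2.2 t).1, T2.lp_smul g (h.2.2.2 t).2⟩⟩

lemma lf_st_tw (T : s.TT) {ρ : ℕ} {p z q : ℕ → Y.V} (h : s.St ρ x y p z q) (k : ℕ) :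
    ∃ z', s.St ρ (tw s γ n k x) (tw s γ n k y) (fun i => tw s γ n k (p i)) z'
      (fun i => tw s γ n k (q i)) :=
  let ⟨_, t⟩ := T2.st_it T h (k * n); ⟨_, lf_st_smul t _⟩

lemma lf_st_lift (T : s.TT) (hn : 0 < n) {ρ j : ℕ} {p z q : ℕ → Y.V}
    (h : s.St ρ (s.σ^[j] x) (s.σ^[j] y) p z q) :
    ∃ p' z' q', s.St ρ (tw s γ n j x) (tw s γ n j y) p' z' q' := by
  obtain ⟨z', t⟩ := T2.st_it T h (j * n - j)
  have e : j * n - j + j = j * n := Nat.sub_add_cancel (Nat.le_mul_of_pos_right j hn)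
  rw [← Function.iterate_add_apply, ← Function.iterate_add_apply, e] at t
  exact ⟨_, _, _, lf_st_smul t _⟩

/-- a dart in the interior of its own twisted image -/
structure Gd (s : Flow Y) (γ : G) (n : ℕ) (e : Y.Dir) : Prop where
  T : s.TT
  pos : 0 < n
  deg : dg d γ = -n
  cr : Y.Cross (tw s γ n 1 e.src) (tw s γ n 1 e.tgt) e
  n1 : e.src ≠ tw s γ n 1 e.src
  n2 : e.tgt ≠ tw s γ n 1 e.tgt

/-- one half of the leaf -/
structure Half (s : Flow Y) (γ : G) (n : ℕ) (e : Y.Dir) (r : ℕ → Y.Dir) (m : ℕ → ℕ) : Prop where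
  ray : DRay r
  zero : r 0 = e
  mono : StrictMono m
  lt : ∀ k, k < m k
  orb : ∀ k, tw s γ n k e.tgt = (r (m k)).src

namespace Gd

variable (A : Gd s γ n e)
include A

lemma rv : Gd s γ n e.rv :=
  ⟨A.T, A.pos, A.deg, by simpa using A.cr.symm, by simpa using A.n2, by simpa using A.n1⟩

lemma leg (k : ℕ) : s.LegalP (tw s γ n k e.src) (tw s γ n k e.tgt) :=
  tw_legal A.T (T2.lp_adj (adj_dir e)) k

lemma ne (k : ℕ) : tw s γ n k e.src ≠ tw s γ n k e.tgt :=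
  lf_ne A.T (T2.lp_adj (adj_dir e)) (src_ne_tgt e) k

lemma b1 (k : ℕ) : Y.btw (tw s γ n (k + 1) e.src) (tw s γ n k e.src) (tw s γ n k e.tgt) := by
  rw [tw_add]
  exact tw_btw (T2.lp_left (A.leg 1) A.cr.btw_tgt) A.cr.btw1 k

lemma b2 (k : ℕ) : Y.btw (tw s γ n k e.src) (tw s γ n k e.tgt) (tw s γ n (k + 1) e.tgt) := by
  rw [tw_add]
  exact tw_btw (T2.lp_right (A.leg 1) A.cr.btw_src) A.cr.btw2 k

lemma ne2 (k : ℕ) : tw s γ n k e.tgt ≠ tw s γ n (k + 1) e.tgt := by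
  rw [tw_add]
  exact lf_ne A.T (T2.lp_right (A.leg 1) A.cr.btw_tgt) A.n2 k

lemma cross (k : ℕ) : Y.Cross (tw s γ n k e.src) (tw s γ n k e.tgt) e := by
  induction k with
  | zero => simpa using cross_self e
  | succ k ih => exact ih.extend (A.b1 k) ((A.b1 k).glue' (A.b2 k) (A.ne k))

lemma b3 (k : ℕ) : Y.btw e.src (tw s γ n k e.tgt) (tw s γ n (k + 1) e.tgt) :=
  (A.b2 k).trans_left' (A.cross k).btw_src

lemma b4 {k l : ℕ} (h : k ≤ l) : Y.btw e.src (tw s γ n k e.tgt) (tw s γ n l e.tgt) := by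
  induction h with
  | refl => exact btw_right (A.b3 k).lev1
  | step _ ih => exact (A.b3 _).trans_left ih

lemma mono : StrictMono fun k => Y.dist e.src (tw s γ n k e.tgt) :=
  strictMono_nat_of_lt_succ fun k => by
    have h1 := (A.b3 k).dist_add
    have h2 := dist_pos (A.b3 k).lev2 (A.ne2 k)
    omega

lemma lt (k : ℕ) : k < Y.dist e.src (tw s γ n k e.tgt) := by
  induction k with
  | zero => simp [dist_src_tgt]
  | succ k ih => exact lt_of_le_of_lt ih (A.mono (Nat.lt_succ_self k))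

lemma half : ∃ r m, Half s γ n e r m := by
  have h1 : ∀ t, ∃ D : Y.Dir, Y.Cross e.src (tw s γ n t e.tgt) D ∧ Y.dist e.src D.src = t := by
    intro t
    obtain ⟨x, h1, h2⟩ := exists_btw_dist (A.b3 t).lev1 (A.lt t).le
    obtain ⟨D, rfl, h3⟩ := exists_step h1.lev2 (by rintro rfl; exact (A.lt t).ne' h2)
    exact ⟨D, h3.extend_left h1, h2⟩
  choose r c1 c2 using h1
  have c3 : ∀ t, (r t).tgt = (r (t + 1)).src := fun t =>
    ((c1 t).extend_right (A.b3 t)).btw_tgt.eq_of_dist (c1 (t + 1)).btw_src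
      (by rw [(c1 t).dist_src, c2, c2])
  refine ⟨r, _, ⟨c3, fun t => H_subset (c3 t ▸ tgt_mem_H _) ?_⟩, ?_, A.mono, A.lt, fun k => ?_⟩
  · exact (c1 t).btw1.mem_H (c1 (t + 1)).1 (c3 t ▸ src_mem_rv_H _)
  · exact step_unique (c1 0) (by simpa using cross_self e)
      (eq_of_dist (c1 0).lev_src (c2 0)).symm
  · exact (A.b4 (A.lt k).le).eq_of_dist (c1 _).btw_src (c2 _).symm

end Gd

namespace Half

variable (H : Half s γ n e r m)
include H

lemma out (h : x ∈ e.rv.H) (t : ℕ) : x ∈ (r t).rv.H :=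
  mem_rv_H_of_not ((rv_H_lev h).trans (H.zero ▸ (H.ray.lev t).symm)) fun c =>
    not_mem_H_both (H.zero ▸ H.ray.anti_le (Nat.zero_le t) c) h

lemma on (A : Gd s γ n e) {q k : ℕ} (h : q ≤ m k) :
    Y.btw (tw s γ n k e.src) (r q).src (tw s γ n k e.tgt) := by
  refine (A.cross k).btw_src.trans_right ?_
  rw [H.orb, ← H.zero]
  exact H.ray.btw3 (Nat.zero_le q) h

lemma leg (A : Gd s γ n e) (p q : ℕ) : s.LegalP (r p).src (r q).src :=
  (A.leg (max p q)).sa_sub (H.on A ((le_max_left p q).trans (H.lt _).le))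
    (H.on A ((le_max_right p q).trans (H.lt _).le))

lemma leg2 (A : Gd s γ n e) (H' : Half s γ n e.rv r' m') (p q : ℕ) :
    s.LegalP (r' p).src (r q).src :=
  (A.leg (max p q)).sa_sub
    (by simpa using (H'.on A.rv ((le_max_left p q).trans (H'.lt _).le)).symm)
    (H.on A ((le_max_right p q).trans (H.lt _).le))

lemma grow (A : Gd s γ n e) {C t : ℕ} (hC : ∀ a x b, Y.btw a x b → ∃ z,
    Y.btw (tw s γ n 1 a) z (tw s γ n 1 b) ∧ Y.dist (tw s γ n 1 x) z ≤ C) (ht : C + 1 ≤ t)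
    (hu : u ∈ (r t).H) : tw s γ n 1 u ∈ (r (t + 1)).H := by
  have h0 : e.tgt = (r 1).src := H.zero ▸ H.ray.tgt 0
  have h1 : Y.btw e.src (r (t + 1)).src u := by
    rw [← H.ray.tgt, ← H.zero]
    exact (H.ray.cross (Nat.zero_le t) hu).btw_tgt
  have h2 := tw_btw (γ := γ) (n := n) (H.leg A 1 (m t))
    (H.ray.btw3 (Nat.succ_le_succ (Nat.zero_le t)) (H.lt t)) 1
  have h3 := tw_exp (γ := γ) A.T A.pos (H.leg A 1 (t + 1))
  rw [← H.orb, ← tw_succ, ← h0, H.orb, H.orb] at h2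
  obtain ⟨M, h4, -, h5⟩ := H.ray.on_seg (H.mono.monotone (by omega)) h2
  rw [H.ray.dist_sub (by omega), h5, ← h0, H.orb, H.ray.dist_sub h4] at h3
  obtain ⟨z, h6, h7⟩ := hC _ _ _ h1
  have h8 := H.lt 1
  rw [h5] at h7
  have h9 : z ∈ (r (t + 1)).H := H.ray.near (H.ray.src_mem (by omega : t + 1 + C < M))
    ((H.ray.lev M).trans (H.zero ▸ ((lev_tw A.deg 1 _).symm.trans h6.lev1))) h7
  exact Cross.mem_H ⟨H.out A.cr.1 _, h9⟩ h6

lemma attr1 (A : Gd s γ n e) (hx : x ∈ e.rv.H) (hu : u ∈ e.H) (h : s.LegalP x u) (c : ℕ) :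
    tw s γ n c u ∈ (r c).H := by
  have h1 : Y.Cross x u e := ⟨hx, hu⟩
  exact Cross.mem_H ⟨H.out (A.cross c).1 c, H.orb c ▸ H.ray.src_mem (H.lt c)⟩
    (tw_btw (T2.lp_right h h1.btw_src) h1.btw2 c)

lemma attr2 (A : Gd s γ n e) (H' : Half s γ n e.rv r' m') {N j ρ : ℕ}
    (hN : ∀ p y q, s.INP p y q → Y.dist p q ≤ N) {p z q : ℕ → Y.V} (hu : u ∈ e.H)
    (h : s.St ρ (tw s γ n j e.src) u p z q) (c : ℕ) :
    ∃ k, tw s γ n k u ∈ (r c).H ∨ tw s γ n k u ∈ (r' c).H := by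
  have ha := (A.cross j).1
  rcases Nat.eq_zero_or_pos ρ with t | t
  · exact ⟨c, Or.inl (H.attr1 A ha hu (h.2.2.1 t) c)⟩
  obtain ⟨i1, i2, i3⟩ := h.1 0 t
  have i4 := i2.glue i3 (T2.inp_ne'' i1)
  have hc : Y.Cross (tw s γ n j e.src) u e := ⟨ha, hu⟩
  rcases hc.side i4 with w | w
  · refine ⟨c + N, Or.inr (by_contra fun hn => ?_)⟩
    obtain ⟨z', k1⟩ := lf_st_tw (γ := γ) (n := n) A.T h (c + N)
    obtain ⟨k1, -, k3⟩ := k1.1 0 t
    have k4 := tw_btw (γ := γ) (n := n) (T2.lp_left (A.leg j) (A.cross j).btw_src) w (c + N)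
    have o : ∀ k, tw s γ n k e.src = (r' (m' k)).src := fun k => by simpa using H'.orb k
    rw [← tw_add, o, o] at k4
    obtain ⟨M, k5, -, k6⟩ := H'.ray.on_seg (H'.mono.monotone (Nat.le_add_right _ j)) k4.symm
    have k7 := H'.lt (c + N)
    have k8 := hN _ _ _ k1
    have k9 := k1.2.2.2.1
    beta_reduce at k3 k8 k9
    rw [k6] at k3 k8 k9
    have l1 : tw s γ n (c + N) u ∈ (r' c).rv.H :=
      mem_rv_H_of_not (k3.lev3.symm.trans (H'.ray.lev' _ _)) hn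
    have l2 := H'.ray.btw_of_cross l1 (H'.ray.src_mem (by omega : c < M)) le_rfl le_rfl
    refine k9 (T2.lp_left (H'.leg A.rv M c) (k3.of_dist_le l2.symm ?_))
    rw [Forest.dist_comm _ (r' c).src, H'.ray.dist_sub (by omega)]
    omega
  · refine ⟨c, Or.inl ?_⟩
    obtain ⟨z', k1⟩ := lf_st_tw (γ := γ) (n := n) A.T h c
    obtain ⟨k1, k2, k3⟩ := k1.1 0 t
    have k4 := H.attr1 A ha (w.mem_H (tgt_mem_H e) hu)
      (T2.lp_left (h.2.2.2 t).1 (i2.trans_right' i1.1)) c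
    refine Cross.mem_H ⟨?_, k4⟩ (k2.glue k3 (T2.inp_ne'' k1))
    rw [← tw_add]
    exact H.out (A.cross _).1 c

end Half

theorem stLEAF : St_LEAF := by
  intro G _ d F Y s hs g e n hn hg h he
  have A : Gd s g⁻¹ n e := by
    have t := h.1.smul g⁻¹
    rw [tr_inv_tr] at t
    refine ⟨hs.toTT, hn, by simp [dg, ← hg], by simpa [tw] using t, fun c => h.2.1 ?_,
      fun c => h.2.2 ?_⟩
    · rw [src_tr]; exact (congrArg (g • ·) c).trans (by simp [tw])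
    · rw [tgt_tr]; exact (congrArg (g • ·) c).trans (by simp [tw])
  obtain ⟨r, m, H⟩ := A.half
  obtain ⟨r', m', H'⟩ := A.rv.half
  obtain ⟨C, hC⟩ := (tw_qm F.surj s g⁻¹ n 1).bcc
  obtain ⟨N, hN⟩ := T2.inp_bound hs
  refine ⟨fun i => cond i r r', C + 1, hn, A.deg, he, fun i => ?_, H.zero, fun i => ?_,
    H.leg2 A H', fun i => ?_, fun i t ht u hu => ?_, fun u hu => ?_⟩
  · cases i
    exacts [H'.ray, H.ray]
  · cases i <;> simp [H.zero, H'.zero]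
  · cases i
    · exact ⟨m', H'.mono, fun k => by simpa [H'.zero] using H'.orb k⟩
    · exact ⟨m, H.mono, fun k => by simpa [H.zero] using H.orb k⟩
  · cases i
    exacts [H'.grow A.rv hC ht hu, H.grow A hC ht hu]
  · obtain ⟨j, hj⟩ := T2.stab hs (max (Y.dist e.src u) (Y.dist e.tgt u))
    have l : Y.lev e.src = Y.lev u := he.trans hu.symm
    rcases mem_H_or ((lev_tw A.deg j u).trans l.symm) with t | t
    · obtain ⟨ρ, p, z, q, -, k⟩ := hj _ _ (T2.il_le l (le_max_left _ _))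
      obtain ⟨p, z, q, k⟩ := lf_st_lift (γ := g⁻¹) A.T hn k
      obtain ⟨k, w | w⟩ := H.attr2 A H' hN t k (C + 1)
      exacts [⟨k + j, true, tw_add k j u ▸ w⟩, ⟨k + j, false, tw_add k j u ▸ w⟩]
    · obtain ⟨ρ, p, z, q, -, k⟩ := hj _ _
        (T2.il_le ((lev_src_tgt e).symm.trans l) (le_max_right _ _))
      obtain ⟨p, z, q, k⟩ := lf_st_lift (γ := g⁻¹) A.T hn k
      obtain ⟨k, w | w⟩ := H'.attr2 A.rv (by simpa using H) hN t (by simpa using k) (C + 1)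
      exacts [⟨k + j, false, tw_add k j u ▸ w⟩, ⟨k + j, true, tw_add k j u ▸ w⟩]

end Pool.Agent.Lib.FBC.X4
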