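import Pool.Agent.Lib.FBC.X4.Tw

/-!
Rays of non-attracted ends have long legal segments in the forward tree.
-/

namespace Pool.Agent.Lib.FBC.X4

open Forest Filter

variable {G : Type} [Group G] {d : Dg G} {Y : Forest d} {s : Flow Y}

lemma long_nl_ext {r C : ℕ} {a b a' b' : Y.V} (h : s.NL r a b) (la : Y.lev a = Y.lev a')
    (lb : Y.lev b = Y.lev b') (ha : Y.dist a a' ≤ C) (hb : Y.dist b b' ≤ C) :
    s.NL (C + r + C) a' b' := by
  have k : ∀ {x y}, Y.lev x = Y.lev y → Y.dist x y ≤ C → T2.Ch s.Piece C x y := fun l e =>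
    (T2.ch_adj (fun _ _ t => Or.inr (Or.inl t)) l).mono (Or.inl rfl) e
  exact ((k la.symm (by rwa [Forest.dist_comm])).trans h).trans (k lb hb)

lemma long_sub {ρ : ℕ → Y.Dir} (hρ : DRay ρ) {p q L : ℕ} (e : p ≤ q)
    (h : s.LegalP (ρ p).src (ρ q).src) (hL : L ≤ Y.dist (ρ p).src (ρ q).src) :
    s.LegalP (ρ p).src (ρ (p + L)).src := by
  rw [hρ.dist_sub e] at hL
  exact T2.lp_sub h (btw_left h.1) (hρ.btw3 (by omega) (by omega))

lemma long_seg {ρ : ℕ → Y.Dir} (hρ : DRay ρ) {m m' N L : ℕ} (hm : N ≤ m) (hm' : N ≤ m')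
    {x y : Y.V} (hx : Y.btw (ρ m).src x (ρ m').src) (hy : Y.btw (ρ m).src y (ρ m').src)
    (h : s.LegalP x y) (hL : L ≤ Y.dist x y) :
    ∃ p ≥ N, s.LegalP (ρ p).src (ρ (p + L)).src := by
  obtain ⟨p, p1, -, rfl⟩ := hρ.on_seg' hx
  obtain ⟨q, q1, -, rfl⟩ := hρ.on_seg' hy
  rcases le_total p q with e | e
  · exact ⟨p, (le_min hm hm').trans p1, long_sub hρ e h hL⟩
  · exact ⟨q, (le_min hm hm').trans q1,
      long_sub hρ e (T2.lp_symm h) (by rwa [Forest.dist_comm])⟩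

theorem stLONG (hLAM : St_LAM) (hCONE : St_CONE) (hBI : St_BI) : St_LONG := by
  intro G _ d d' hF X hs ht g n e r c Lf U hU ρ hρ hc N L
  obtain ⟨L0, hL0⟩ := hLAM G d' (hF.symm X) X.M X.t ht g⁻¹ n e r c Lf
  obtain ⟨i, hi⟩ := hBI G d d' hF X hs ht (max L L0)
  obtain ⟨k, hk⟩ := hCONE G d' d (hF.symm X) X.symm ht hs
  obtain ⟨ρ', r1, r2, r3, r4, r5⟩ := hL0 _ (Lf.lam_map hU i)
  obtain ⟨C, hC⟩ := round hF.surj X g n i
  obtain ⟨C'', hC''⟩ := h'h hF.surj X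
  have cv : Cv (U : Filter X.M.V) (tw X.t g⁻¹ n i) ρ' := fun k => r3 k
  obtain ⟨l, C', hC'⟩ := cv.ray_near r1 (fh_qm hF.surj X g n i) (y := X.h.f) hc hρ
    (Eventually.of_forall hC)
  obtain ⟨R, hR⟩ := hi (i * n) (Nat.le_mul_of_pos_right _ Lf.pos) (max C' C'')
  obtain ⟨p, hp⟩ := hC' N
  obtain ⟨q, hq, hn⟩ := r5 (C'' + R * k + C'') p
  obtain ⟨m, hm, dm⟩ := hp p le_rfl
  obtain ⟨m', hm', dm'⟩ := hp q hq
  have dg1 : dg d g = -n := by
    have h1 := Lf.deg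
    have h2 := X.neg g
    rw [dg_inv] at h1
    omega
  have l0 : ∀ p, X.M.lev (ρ' p).src = 0 := fun p => by rw [r1.lev, r2, Lf.lev]
  have l1 : ∀ p, X.P.lev (X.h.f (ρ' p).src) = 0 := fun p => by rw [X.lev_h, l0, neg_zero]
  have l2 : ∀ m, X.P.lev (ρ m).src = 0 := fun m => by
    rw [hρ.lev, ← l, lev_tw dg1, l1]
  have l3 : ∀ m p, X.P.lev ((g ^ i)⁻¹ • (ρ m).src) =
      X.P.lev (X.h.f (ρ' p).src) + (i * n : ℕ) := fun m p => by
    rw [lev_smul', l1, l2, dg_inv, dg_pow, dg1]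
    push_cast
    ring
  have d1 : ∀ m p, X.P.dist (tw X.s g n i (X.h.f (ρ' p).src)) (ρ m).src ≤ C' →
      X.P.dist (X.s.σ^[i * n] (X.h.f (ρ' p).src)) ((g ^ i)⁻¹ • (ρ m).src) ≤ max C' C'' :=
    fun m p t => by
      rw [← Forest.dist_smul (g ^ i), smul_inv_smul]
      exact t.trans (le_max_left _ _)
  by_contra hcon
  refine hn (long_nl_ext (hk _ _ _ (hR _ _ _ _ _ _ ((l1 p).trans (l1 q).symm) (l3 m p) (l3 m' p)
    (by rw [l0, l1, neg_zero]) (by rw [l0, l1, neg_zero]) (d1 m p dm) (d1 m' q dm')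
    ((hC'' _).2.trans (le_max_right _ _)) ((hC'' _).2.trans (le_max_right _ _))
    (fun x y hx hy h => not_le.1 fun t => hcon ?_)
    fun x y hx hy h => (r4 p q x y hx hy h).trans_le (le_max_right _ _)))
    (hC'' _).1 (hC'' _).1 (hC'' _).2 (hC'' _).2)
  exact long_seg hρ hm hm' (by simpa using hx.smul (g ^ i)) (by simpa using hy.smul (g ^ i))
    (T2.lp_smul (g ^ i) h) (by rw [Forest.dist_smul]; exact (le_max_left _ _).trans t)

end Pool.Agent.Lib.FBC.X4
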