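import Pool.Agent.Lib.FBC.X4.Tw

/-!
Some ultrafilter is not attracted to the ends of the leaf.
-/

namespace Pool.Agent.Lib.FBC.X4

open Forest Filter

theorem stNE : St_NE := by
  intro G _ d hG Y s γ n e r c L
  let B : ℕ → Set Y.V := fun j => {z | Y.lev z = 0 ∧ ∀ i, tw s γ n j z ∉ (r i c).H}
  have anti : Antitone B := antitone_nat_of_succ_le fun j z hz => ⟨hz.1, fun i t => hz.2 i (by
    rw [tw_succ]
    exact (L.ray i).anti c (L.grow i c le_rfl _ t))⟩
  obtain ⟨C, hC⟩ := (Set.finite_range fun p : Y.I × Bool × Bool =>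
    Y.dist (r p.2.2 0).src (Y.en p.1 p.2.1)).bddAbove
  have ne : ∀ j, (B j).Nonempty := fun j => by
    obtain ⟨D, hD⟩ := exists_dir_at hG.surj ⟨e.1.i⟩ (tw s γ n (C + j) e.src)
    have h0 : dg d D.1.g = 0 := by rw [← lev_src, hD, L.lev_tw, L.lev]
    refine ⟨((γ ^ (C + j))⁻¹ * D.1.g⁻¹ * γ ^ (C + j)) • e.src, by
      simp [lev_smul', h0, L.lev], fun i t => ?_⟩
    have h1 := (L.ray i).far (L.grow_iter le_rfl t C)
    rw [← tw_add, tw_smul, ← hD] at h1
    have h2 := hC ⟨(D.1.i, D.2, i), rfl⟩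
    simp only [mul_assoc, mul_inv_cancel, mul_one, mul_inv_cancel_left, Dir.src, E.ed,
      inv_smul_smul] at h1 h2
    omega
  have : (⨅ j, 𝓟 (B j)).NeBot := iInf_neBot_of_directed'
    (directed_of_isDirected_le (f := fun j => 𝓟 (B j)) (r := (· ≥ ·))
      fun i j h => principal_mono.2 (anti h)) fun j => principal_neBot_iff.2 (ne j)
  exact ⟨Ultrafilter.of (⨅ j, 𝓟 (B j)), fun j =>
    Ultrafilter.of_le _ (mem_iInf_of_mem j (mem_principal_self _))⟩

end Pool.Agent.Lib.FBC.X4
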