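import Pool.Agent.Lib.FBC.X4.Tw

/-!
Legal paths of the forward tree do not follow the attracting leaf of the backward tree.
-/

namespace Pool.Agent.Lib.FBC.X4

open Forest Filter

namespace NOL

variable {G : Type} [Group G] {d d' : Dg G}

lemma tri {Y : Forest d} {a b c : Y.V} (ha : Y.lev a = 0) (hb : Y.lev b = 0) (hc : Y.lev c = 0) :
    Y.dist a c ≤ Y.dist a b + Y.dist b c := dist_triangle (ha.trans hb.symm) (hb.trans hc.symm)

lemma one (hd : Function.Surjective d) (X : Pair d d') (T : X.s.TT) {g : G} {n : ℕ}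
    {e : X.M.Dir} {r : Bool → ℕ → X.M.Dir} {c : ℕ} (L : Leaf X.t g⁻¹ n e r c) (N : ℕ) (i : Bool) :
    ∃ N', ∀ y z, X.s.LegalP y z → X.P.lev y = 0 → X.h'.f y ∉ (r i N).H →
      X.h'.f z ∉ (r i N').H := by
  have hg : dg d g = -n := by
    have h1 := L.deg
    rw [dg_inv, X.neg, neg_neg] at h1
    exact h1
  have hρ := L.ray i
  obtain ⟨m, hm, om⟩ := L.orbit i
  obtain ⟨B, hB⟩ := (h_qm hd X).bcc
  obtain ⟨C0, hC0⟩ := hh' hd X
  obtain ⟨C1, hC1⟩ := round hd X g n 1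
  obtain ⟨Λ, hΛ⟩ := (tw_qm hd X.s g n 1).lip
  have lh : ∀ k, X.P.lev (X.h.f (r i k).src) = 0 := fun k => by
    rw [X.lev_h, L.lev_src, neg_zero]
  have lf : ∀ a, X.P.lev a = 0 → X.P.lev (tw X.s g n 1 a) = 0 := fun a ha =>
    (lev_tw hg 1 a).trans ha
  obtain ⟨p, hp⟩ := (h_qm hd X).far (r i N).src (X.h.f (r i N).src) rfl
    (8 * (B + C0) + 2 * (Λ * (B + C0)) +
      X.P.dist (tw X.s g n 1 (X.h.f (r i N).src)) (X.h.f (r i N).src) + C1 + B)
  have k1 : N + p ≤ m (N + p) := hm.le_apply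
  have k2 : m (N + p) < m (N + p + 1) := hm (Nat.lt_succ_self _)
  refine ⟨m (N + p + 1), fun y z hl ly hy hz => ?_⟩
  have lz : X.P.lev z = 0 := hl.1.symm.trans ly
  have hy' : X.h'.f y ∈ (r i N).rv.H :=
    mem_rv_H_of_not (by rw [X.lev_h', ly, L.lev_src, neg_zero]) hy
  have near : ∀ j, N ≤ j → j ≤ m (N + p + 1) →
      ∃ x, X.P.btw y x z ∧ X.P.dist (X.h.f (r i j).src) x ≤ B + C0 := by
    intro j j1 j2
    obtain ⟨u, u1, u2⟩ := hB _ _ _ (hρ.btw_of_cross hy' hz j1 j2)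
    obtain ⟨x, x1, x2⟩ := near_seg u1 (hC0 y).1 (hC0 z).1 (hC0 y).2 (hC0 z).2
    have lu : X.P.lev u = 0 := u1.lev1.symm.trans ((hC0 y).1.trans ly)
    have := tri (lh j) lu (x1.lev1.symm.trans ly)
    exact ⟨x, x1, by omega⟩
  obtain ⟨x, x1, x2⟩ := near N le_rfl (by omega)
  obtain ⟨w, w1, w2⟩ := near (m (N + p + 1)) (by omega) le_rfl
  have lx : X.P.lev x = 0 := x1.lev1.symm.trans ly
  have lw : X.P.lev w = 0 := w1.lev1.symm.trans ly
  have e1 := tw_exp (γ := g) T L.pos (hl.sa_sub x1 w1)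
  have e2 := hp (r i (m (N + p + 1))).src (hρ.lev' _ _) (by rw [hρ.dist_sub (by omega)]; omega)
  have e3 := (hC1 (r i (m (N + p))).src).2
  rw [← om, ← tw_succ, om, om] at e3
  obtain ⟨u, u1, u2⟩ := hB _ _ _ (hρ.btw3 (i := N) (j := m (N + p)) (k := m (N + p + 1))
    (by omega) k2.le)
  have lu : X.P.lev u = 0 := u1.lev1.symm.trans (lh _)
  have e4 := u1.dist_le
  have e5 := tri (lh N) lu (lh (m (N + p)))
  rw [Forest.dist_comm u] at e5
  have e6 := (hΛ _ _ ((lh N).trans lx.symm)).trans (Nat.mul_le_mul_left Λ x2)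
  have e7 := (hΛ _ _ ((lh (m (N + p + 1))).trans lw.symm)).trans (Nat.mul_le_mul_left Λ w2)
  have t1 := tri (lf _ lx) (lf _ (lh N)) (lf _ lw)
  have t2 := tri (lf _ (lh N)) (lh N) (lf _ lw)
  have t3 := tri (lh N) (lh (m (N + p))) (lf _ lw)
  have t4 := tri (lh (m (N + p))) (lf _ (lh (m (N + p + 1)))) (lf _ lw)
  have t5 := tri (lh N) lx (lh (m (N + p + 1)))
  have t6 := tri lx lw (lh (m (N + p + 1)))
  rw [Forest.dist_comm (tw X.s g n 1 x) (tw X.s g n 1 (X.h.f (r i N).src))] at t1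
  rw [Forest.dist_comm (X.h.f (r i (m (N + p))).src) (tw X.s g n 1 (X.h.f _))] at t4
  rw [Forest.dist_comm w (X.h.f _)] at t6
  omega

end NOL

theorem stNOL : St_NOL := by
  intro G _ d d' hF X T _ g n e r c L N
  choose N' hN using NOL.one hF.surj X T L N
  refine ⟨max (N' false) (N' true), fun y z i hl ly hy hz => hN i y z hl ly hy ?_⟩
  exact (L.ray i).anti_le (by cases i <;> simp) hz

end Pool.Agent.Lib.FBC.X4
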