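import Pool.Agent.Lib.FBC.X4.Ray
import Pool.Agent.Lib.FBC.T2.Run

/-!
A ray of bounded coned-off length ends in the hull of one Nielsen class.
-/

namespace Pool.Agent.Lib.FBC.X4

open Forest

theorem stRAY : St_RAY := by
  intro G _ d hd Y s hN ρ R p hρ hNL
  obtain ⟨N, -, -, o3, o4⟩ := T2.stOV G d hd Y s hN
  by_cases h : ∃ k, ∀ l0, ∃ l ≥ l0, ∃ p q, s.Cls p q ∧ Y.btw p (ρ k).src q ∧ Y.btw p (ρ l).src q
  · obtain ⟨k, hk⟩ := h
    obtain ⟨l, hl, w, q, c, h1, h2⟩ := hk (k + N)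
    refine ⟨w, fun m => ?_⟩
    obtain ⟨l', hl', w', q', c', h1', h2'⟩ := hk (k + N + m + N + 1)
    have cw : s.Cls w w' := o4 w q w' q' (ρ k).src (ρ (k + N)).src c c' h1
      (h1.convex h2 (hρ.btw3 (by omega) hl)) h1' (h1'.convex h2' (hρ.btw3 (by omega) (by omega)))
      (hρ.dist_add k N).ge
    obtain ⟨z, z1, z2, z3⟩ := o3 w' q' (ρ l').src c' h2'
    exact ⟨z, hρ.near (C := N) (hρ.src_mem (by omega)) z2.lev2.symm (Forest.dist_comm z _ ▸ z3),
      cw.trans z1⟩
  · push Not at h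
    choose f hf using h
    have step : ∀ k x y, s.Piece x y → y ∈ (ρ (max (f k) (k + 1))).H → x ∈ (ρ k).H := by
      rintro k x y (rfl | e | ⟨a, b, c, h1, h2⟩) hy
      · exact hρ.anti_le (by omega) hy
      · exact hρ.near (C := 1) (hρ.anti_le (le_max_right _ _) hy) e.lev.symm e.symm.dist.le
      · refine mem_H_of_not ((h1.lev2.trans h2.lev2.symm).trans (hy.1.trans (hρ.lev' _ _)))
          fun hx => hf k _ (le_max_left _ (k + 1)) a b c ?_ ?_
        · exact h1.convex h2 (hρ.btw_of_cross hx hy le_rfl (by omega))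
        · exact h1.convex h2 (hρ.btw_of_cross hx hy (by omega) le_rfl)
    obtain ⟨z, z0, zR, hz⟩ := hNL (p + (fun k => max (f k) (k + 1))^[R] p + 1) (by omega)
    have key : ∀ i ≤ R, z i ∉ (ρ ((fun k => max (f k) (k + 1))^[i] p)).H := fun i hi => by
      induction i with
      | zero => exact z0 ▸ src_not_mem_H _
      | succ i ih =>
        rw [Function.iterate_succ_apply']
        exact fun t => ih (by omega) (step _ _ _ (hz i hi) t)
    exact (key R le_rfl (zR ▸ hρ.src_mem (by omega))).elim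

end Pool.Agent.Lib.FBC.X4
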