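import Pool.Agent.Lib.FBC.X4.Glue
import Pool.Agent.Lib.FBC.X4.LEAF
import Pool.Agent.Lib.FBC.X4.LAM
import Pool.Agent.Lib.FBC.X4.LONG
import Pool.Agent.Lib.FBC.X4.NE
import Pool.Agent.Lib.FBC.X4.NOL
import Pool.Agent.Lib.FBC.X4.AP
import Pool.Agent.Lib.FBC.X4.RAY2
import Pool.Agent.Lib.FBC.T2.All

/-!
North-south dynamics.
-/

namespace Pool.Agent.Lib.FBC.X4

open Forest

theorem s1_holds : St_S1 := by
  intro G _ d hG Y s T γ n e r c L
  obtain ⟨C, hC⟩ := pers0 T hG.surj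
  refine ⟨C + 1 + C, fun x y h1 h2 h3 => ?_⟩
  obtain ⟨w, w1, w2⟩ := exists_btw_dist h1.1 (k := C + 1) (by omega)
  obtain ⟨u, u1, u2⟩ := exists_btw_dist w1.lev1 (k := 1) (by omega)
  have a1 := w1.dist_add
  have a2 := u1.dist_add
  have u3 := w1.trans_left u1
  have a3 : Y.btw e.src u y := h3.trans_right u3
  have a4 : Y.btw e.tgt u y := (a3.cover (lev_src_tgt e)).elim (fun t => by
    have b1 := t.dist_le
    have b2 := (h3.trans_right' u3).dist_add
    rw [dist_src_tgt] at b1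
    rw [t.eq_right (by rw [dist_src_tgt]; omega)] at a3 ⊢
    exact btw_left a3.lev2) id
  obtain ⟨j, i, hj⟩ := L.attr w ((h3.lev1.trans w1.lev1).symm.trans L.lev)
  obtain ⟨m, m1, m2⟩ := L.orbit (!i)
  refine ⟨j, i, fun z hz => ?_⟩
  have a5 : Y.btw (r (!i) 0).tgt u y := by
    cases i
    · rwa [Bool.not_false, L.zero]
    · rwa [Bool.not_true, L.zero', tgt_rv]
  have m0 : 0 < m j := Nat.pos_of_ne_zero fun t => by
    obtain rfl : j = 0 := by have := m1.le_apply (x := j); omega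
    have := m2 0
    rw [t, tw_zero] at this
    exact src_ne_tgt _ this.symm
  exact Cross.mem_H ⟨L.mem_rv (m2 j ▸ (L.ray _).src_mem m0), hj⟩
    ((hC _ u w y z (h1.sa_sub u3 (btw_right h1.1)) (w1.symm.trans_right' u1.symm).symm
      (by omega) (by omega) a5 (hz.trans_left' u3) _).smul _)

theorem stNS : St_NS :=
  have l := stLAM s1_holds stRAY
  stNS_of stLEAF l (stLONG l T2.cone_holds T2.bi_holds) stNE (stAP stNOL)

end Pool.Agent.Lib.FBC.X4
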