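import Pool.Agent.Lib.FBC.X4.Ray

/-!
Twisted iterates, persistence of a vertex, basic facts on leaves.
-/

namespace Pool.Agent.Lib.FBC.X4

open Forest Filter

variable {G : Type} [Group G] {d d' : Dg G} {Y : Forest d} {s : Flow Y} {γ g : G} {n j : ℕ}
  {a b x : Y.V}

@[simp] lemma tw_zero : tw s γ n 0 a = a := by simp [tw]

lemma tw_add (i j : ℕ) (a : Y.V) : tw s γ n (i + j) a = tw s γ n i (tw s γ n j a) := by
  simp [tw, add_mul, pow_add, mul_smul, Function.iterate_add_apply]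

lemma tw_succ (j : ℕ) (a : Y.V) : tw s γ n (j + 1) a = tw s γ n 1 (tw s γ n j a) := by
  rw [add_comm, tw_add]

lemma tw_smul (w : G) (a : Y.V) :
    tw s γ n j (w • a) = (γ ^ j * w * (γ ^ j)⁻¹) • tw s γ n j a := by simp [tw, mul_smul]

lemma lev_tw (h : dg d γ = -n) (j : ℕ) (a : Y.V) : Y.lev (tw s γ n j a) = Y.lev a := by
  simp [tw, lev_smul', h]

lemma tw_legal (T : s.TT) (h : s.LegalP a b) (j : ℕ) : s.LegalP (tw s γ n j a) (tw s γ n j b) :=
  T2.lp_smul _ (T.sa_iter h _)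

lemma tw_btw (h : s.LegalP a b) (hx : Y.btw a x b) (j : ℕ) :
    Y.btw (tw s γ n j a) (tw s γ n j x) (tw s γ n j b) := (h.sa_btw hx _).smul _

lemma tw_exp (T : s.TT) (hn : 0 < n) (h : s.LegalP a b) :
    4 * Y.dist a b ≤ Y.dist (tw s γ n 1 a) (tw s γ n 1 b) := by
  rw [tw, tw, Forest.dist_smul, one_mul]
  exact (Nat.mul_le_mul_right _ (Nat.le_self_pow hn.ne' 4)).trans (T.sa_exp_iter h n)

lemma tw_qm (hd : Function.Surjective d) (s : Flow Y) (γ : G) (n j : ℕ) : QM (tw s γ n j) :=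
  let ⟨k, hk⟩ := s.exists_back (j * n)
  QM.of hd (s.it (j * n)) k (fun a => by simp [hk]) _

/-- an itinerary that follows the source -/
lemma exists_itin_src (T : s.TT) (e : Y.Dir) :
    ∃ ι : ℕ → Y.Dir, ι 0 = e ∧ s.Itin ι ∧ ∀ m, (ι m).src = s.σ^[m] e.src := by
  have : ∀ c : Y.Dir, ∃ c', c'.src = s.σ c.src ∧ s.Desc 1 c c' := fun c =>
    exists_step (T.legal c).1 fun t => by simpa [t] using T.sa_four c
  choose f f1 f2 using this
  refine ⟨fun n => f^[n] e, rfl, fun n => ?_, fun m => ?_⟩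
  · simpa only [Function.iterate_succ_apply'] using f2 (f^[n] e)
  · induction m with
    | zero => rfl
    | succ m ih => simp only [Function.iterate_succ_apply', f1, ih]

/-- a dart in the middle of a long legal segment persists -/
lemma pers_dir (T : s.TT) (hd : Function.Surjective d) : ∃ C, ∀ (ι : ℕ → Y.Dir) (x y : Y.V),
    s.Itin ι → s.LegalP x y → Y.Cross x y (ι 0) → C ≤ Y.dist x (ι 0).src →
    C ≤ Y.dist (ι 0).tgt y → ∀ m, (∀ a, Y.btw a x y → s.σ^[m] a ∈ (ι m).rv.H) ∧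
      ∀ b, Y.btw x y b → s.σ^[m] b ∈ (ι m).H := by
  obtain ⟨C, hC⟩ := T.sand1 hd
  exact ⟨C, fun ι x y h h1 h2 h3 h4 m => ⟨fun a ha => hC (fun n => (ι n).rv) y x a h.rv
    (T2.lp_symm h1) h2.symm (by rwa [tgt_rv, Forest.dist_comm]) ha.symm m,
    fun b hb => hC ι x y b h h1 h2 h4 hb m⟩⟩

/-- a vertex in the middle of a long legal segment persists -/
lemma pers0 (T : s.TT) (hd : Function.Surjective d) : ∃ C, ∀ a x w y b : Y.V, s.LegalP x y →
    Y.btw x w y → C ≤ Y.dist x w → C ≤ Y.dist w y → Y.btw a x y → Y.btw x y b →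
    ∀ m, Y.btw (s.σ^[m] a) (s.σ^[m] w) (s.σ^[m] b) := by
  obtain ⟨C, hC⟩ := pers_dir T hd
  refine ⟨C + 1, fun a x w y b h h1 h2 h3 h4 h5 m => ?_⟩
  obtain ⟨e, rfl, he⟩ := exists_step h1.lev2 (by rintro rfl; simp at h3)
  obtain ⟨ι, rfl, i1, i2⟩ := exists_itin_src T e
  have := he.dist_tgt
  obtain ⟨t1, t2⟩ := hC ι x y i1 h (he.extend_left h1) (by omega) (by omega) m
  exact i2 m ▸ Cross.btw_src ⟨t1 a h4, t2 b h5⟩

section Pair

variable (hd : Function.Surjective d) (X : Pair d d')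
include hd

include X in
lemma surj' : Function.Surjective d' := fun m =>
  let ⟨g, hg⟩ := hd m⁻¹; ⟨g, Multiplicative.toAdd.injective (by simpa [dg, hg] using X.neg g)⟩

lemma h_qm : QM X.h.f := by simpa using QM.of (surj' hd X) X.h X.h' X.lev_hh' 1

lemma h'_qm : QM X.h'.f := by simpa using QM.of hd X.h' X.h X.lev_hh 1

lemma fh_qm (g : G) (n j : ℕ) : QM fun u => tw X.s g n j (X.h.f u) :=
  let ⟨k, hk⟩ := X.s.exists_back (j * n)
  QM.of (surj' hd X) ((X.s.it (j * n)).comp X.h) (X.h'.comp k)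
    (fun a => by simp [hk, X.lev_h, X.lev_h']) _

lemma hh' : ∃ C, ∀ y, X.P.lev (X.h.f (X.h'.f y)) = X.P.lev y ∧ X.P.dist (X.h.f (X.h'.f y)) y ≤ C :=
  let ⟨C, h⟩ := (X.h.comp X.h').exists_disp hd; ⟨C, fun y => ⟨X.lev_hh y, h y⟩⟩

lemma h'h : ∃ C, ∀ u, X.M.lev (X.h'.f (X.h.f u)) = X.M.lev u ∧ X.M.dist (X.h'.f (X.h.f u)) u ≤ C :=
  hh' (surj' hd X) X.symm

lemma round' (g : G) (n j : ℕ) : ∃ C, ∀ y,
    X.M.lev (tw X.t g⁻¹ n j (X.h'.f (tw X.s g n j y))) = X.M.lev (X.h'.f y) ∧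
      X.M.dist (tw X.t g⁻¹ n j (X.h'.f (tw X.s g n j y))) (X.h'.f y) ≤ C :=
  let ⟨C, h⟩ := X.exists_round hd (j * n)
  ⟨C, fun y => by simpa [tw, X.h'.smul, X.lev_h'] using h y⟩

lemma round (g : G) (n j : ℕ) : ∃ C, ∀ u,
    X.P.lev (tw X.s g n j (X.h.f (tw X.t g⁻¹ n j u))) = X.P.lev (X.h.f u) ∧
      X.P.dist (tw X.s g n j (X.h.f (tw X.t g⁻¹ n j u))) (X.h.f u) ≤ C := by
  have := round' (surj' hd X) X.symm g⁻¹ n j
  rw [inv_inv] at this
  exact this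

end Pair

namespace Leaf

variable {e : Y.Dir} {r : Bool → ℕ → Y.Dir} {c : ℕ} (L : Leaf s γ n e r c) {i : Bool} {u : Y.V}
  {p q t : ℕ}
include L

lemma zero' : r false 0 = e.rv := L.zero ▸ L.rv true

lemma lev_src (i : Bool) (k : ℕ) : Y.lev (r i k).src = 0 := by
  rw [(L.ray i).lev]
  cases i
  · rw [L.zero', src_rv, ← lev_src_tgt, L.lev]
  · rw [L.zero, L.lev]

lemma lev_H (h : u ∈ (r i t).H) : Y.lev u = 0 := h.1.trans (L.lev_src _ _)

lemma lev_tw (j : ℕ) (a : Y.V) : Y.lev (tw s γ n j a) = Y.lev a := X4.lev_tw L.deg j a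

lemma mem_rv (h : u ∈ (r (!i) q).H) : u ∈ (r i p).rv.H :=
  mem_rv_H_of_not ((L.lev_H h).trans (L.lev_src _ _).symm) fun t =>
    not_mem_H_both ((L.ray _).anti_le (Nat.zero_le _) t)
      (L.rv i ▸ (L.ray _).anti_le (Nat.zero_le _) h)

lemma src_one (i : Bool) : (r (!i) 1).src = (r i 0).src := by
  rw [← (L.ray _).tgt, L.rv, tgt_rv]

lemma legal' (i : Bool) (p q : ℕ) : s.LegalP (r (!i) p).src (r i q).src := by
  cases i
  · exact T2.lp_symm (L.legal q p)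
  · exact L.legal p q

lemma legal_ray (i : Bool) (p q : ℕ) : s.LegalP (r i p).src (r i q).src := by
  have h := L.legal' i 1 (max p q)
  rw [L.src_one] at h
  exact h.sa_sub ((L.ray i).btw3 (Nat.zero_le _) (le_max_left _ _))
    ((L.ray i).btw3 (Nat.zero_le _) (le_max_right _ _))

lemma grow_iter (ht : c ≤ t) (h : u ∈ (r i t).H) (j : ℕ) : tw s γ n j u ∈ (r i (t + j)).H := by
  induction j with
  | zero => simpa using h
  | succ j ih => rw [tw_succ]; exact L.grow i (t + j) (by omega) _ ih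

lemma attr' (h : Y.lev u = 0) (t : ℕ) : ∃ j i, tw s γ n j u ∈ (r i t).H := by
  obtain ⟨j, i, h⟩ := L.attr u h
  exact ⟨t + j, i, tw_add t j u ▸ (L.ray i).anti_le (by omega) (L.grow_iter le_rfl h t)⟩

lemma lam_map {U : Ultrafilter Y.V} (h : Lam s γ n r c U) (j : ℕ) :
    Lam s γ n r c (U.map (tw s γ n j)) := fun k =>
  (h (k + j)).mono fun z t => ⟨(L.lev_tw j z).trans t.1, fun i => tw_add k j z ▸ t.2 i⟩

end Leaf

end Pool.Agent.Lib.FBC.X4
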