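import Pool.Agent.Lib.FBC.X4.Blue

/-!
Rays, convergence to an end, quasi-isometries acting on ends.
-/

namespace Pool.Agent.Lib.FBC

open Forest Filter

variable {G : Type} [Group G] {d d' : Dg G} {Y : Forest d} {Z : Forest d'}

namespace DRay

variable {r : ℕ → Y.Dir} (h : DRay r) {i j k C : ℕ} {x z : Y.V}
include h

lemma anti_le (e : i ≤ j) : (r j).H ⊆ (r i).H := by
  induction e with
  | refl => exact subset_rfl
  | step _ ih => exact (h.anti _).trans ih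

lemma lev (k : ℕ) : Y.lev (r k).src = Y.lev (r 0).src := by
  induction k with
  | zero => rfl
  | succ k ih => rw [← h.tgt, ← lev_src_tgt, ih]

lemma lev' (i j : ℕ) : Y.lev (r i).src = Y.lev (r j).src := (h.lev i).trans (h.lev j).symm

lemma lev_H (hz : z ∈ (r k).H) : Y.lev z = Y.lev (r 0).src := hz.1.trans (h.lev k)

lemma src_rv (e : i ≤ j) : (r i).src ∈ (r j).rv.H :=
  mem_rv_H_of_not (h.lev' i j) fun t => src_not_mem_H _ (h.anti_le e t)

lemma src_mem (e : i < j) : (r j).src ∈ (r i).H := by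
  obtain ⟨k, rfl⟩ := Nat.exists_eq_add_of_lt e
  rw [← h.tgt]
  exact h.anti_le (by omega) (tgt_mem_H _)

lemma cross (e : i ≤ k) (hz : z ∈ (r k).H) : Y.Cross (r i).src z (r k) := ⟨h.src_rv e, hz⟩

lemma btw (e : i ≤ j) (hz : z ∈ (r j).H) : Y.btw (r i).src (r j).src z := (h.cross e hz).btw_src

lemma btw3 (e : i ≤ j) (e' : j ≤ k) : Y.btw (r i).src (r j).src (r k).src := by
  rcases e'.eq_or_lt with rfl | e'
  · exact btw_right (h.lev' _ _)
  · exact h.btw e (h.src_mem e')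

lemma dist_add (i k : ℕ) : Y.dist (r i).src (r (i + k)).src = k := by
  induction k with
  | zero => simp
  | succ k ih =>
    rw [← add_assoc, ← h.tgt, (h.cross (Nat.le_add_right i k) (tgt_mem_H _)).dist_src, ih]

lemma dist_sub (e : i ≤ j) : Y.dist (r i).src (r j).src = j - i := by
  obtain ⟨k, rfl⟩ := Nat.exists_eq_add_of_le e
  rw [h.dist_add, Nat.add_sub_cancel_left]

lemma dist0 (k : ℕ) : Y.dist (r 0).src (r k).src = k := h.dist_sub (Nat.zero_le k)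

lemma far' (e : i ≤ k) (hz : z ∈ (r k).H) : k - i < Y.dist (r i).src z := by
  have := (h.cross e hz).dist_eq
  rw [h.dist_sub e] at this
  omega

lemma far (hz : z ∈ (r k).H) : k < Y.dist (r 0).src z := h.far' (Nat.zero_le k) hz

lemma inj (e : r i = r j) : i = j := by rw [← h.dist0 i, e, h.dist0]

lemma on (hz : z ∈ (r k).H) (hx : Y.btw (r 0).src x z) (e : Y.dist (r 0).src x ≤ k) :
    x = (r (Y.dist (r 0).src x)).src :=
  hx.eq_of_dist (h.btw (Nat.zero_le _) (h.anti_le e hz)) (h.dist0 _).symm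

lemma on_seg (e : i ≤ j) (hx : Y.btw (r i).src x (r j).src) :
    ∃ m, i ≤ m ∧ m ≤ j ∧ x = (r m).src := by
  have h1 := hx.dist_le
  rw [h.dist_sub e] at h1
  refine ⟨i + Y.dist (r i).src x, by omega, by omega, ?_⟩
  exact hx.eq_of_dist (h.btw3 (by omega) (by omega)) (h.dist_add _ _).symm

lemma on_seg' (hx : Y.btw (r i).src x (r j).src) :
    ∃ m, min i j ≤ m ∧ m ≤ max i j ∧ x = (r m).src := by
  rcases le_total i j with e | e
  · simpa [e] using h.on_seg e hx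
  · simpa [e] using h.on_seg e hx.symm

/-- a geodesic that crosses two darts of the ray contains the part of the ray between them -/
lemma btw_of_cross (hx : x ∈ (r i).rv.H) (hz : z ∈ (r k).H) (e : i ≤ j) (e' : j ≤ k) :
    Y.btw x (r j).src z :=
  Cross.btw_src ⟨mem_rv_H_of_not ((rv_H_lev hx).trans (h.lev' i j)) fun t =>
    not_mem_H_both (h.anti_le e t) hx, h.anti_le e' hz⟩

lemma near (hz : z ∈ (r (k + C)).H) (l : Y.lev z = Y.lev x) (e : Y.dist z x ≤ C) :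
    x ∈ (r k).H := by
  refine mem_H_of_not (l.symm.trans (hz.1.trans (h.lev' _ _))) fun t => ?_
  have h1 := (h.btw_of_cross t hz le_rfl (Nat.le_add_right _ _)).dist_le'
  have h2 := h.far' (Nat.le_add_right k C) hz
  rw [Forest.dist_comm x] at h1
  omega

lemma eq_of_cross {D : Y.Dir} (h0 : (r 0).src ∈ D.rv.H) (hz : (r k).H ⊆ D.H) : ∃ m, D = r m := by
  have c : Y.Cross (r 0).src (r k).tgt D := ⟨h0, hz (tgt_mem_H _)⟩
  have h1 := c.dist_eq
  have h2 : Y.dist (r 0).src (r k).tgt = k + 1 := by rw [h.tgt, h.dist0]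
  have h3 : Y.dist (r 0).src D.src ≤ k := by omega
  exact ⟨_, step_unique c (h.cross (Nat.zero_le _) (h.anti_le h3 (tgt_mem_H _)))
    (h.on (tgt_mem_H _) c.btw_src h3)⟩

/-- a function with finite coboundary is constant near the end -/
lemma const {α : Type*} (φ : Y.V → α) (fin : {c : Y.E | φ (c.ed false) ≠ φ (c.ed true)}.Finite) :
    ∃ m, ∀ x ∈ (r m).H, ∀ y ∈ (r m).H, φ x = φ y := by
  refine ⟨fin.toFinset.sup fun c => Y.dist (r 0).src (c.ed false), fun x hx y hy => ?_⟩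
  refine const_of_sep φ (hx.1.trans hy.1.symm) fun c hc => by_contra fun e => ?_
  exact (h.far ((T2.bt_ed hc false).mem_H hx hy)).not_ge
    (Finset.le_sup (f := fun c : Y.E => Y.dist (r 0).src (c.ed false)) (fin.mem_toFinset.2 e))

lemma side (D : Y.Dir) (l : Y.lev (r 0).src = Y.lev D.src) :
    ∃ m, (r m).H ⊆ D.H ∨ (r m).H ⊆ D.rv.H := by
  obtain ⟨m, hm⟩ := h.const D.1.sd ((Set.finite_singleton D.1).subset fun c hc =>
    by_contra fun e => hc (sd_ed_ne (Ne.symm e) _ _))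
  have l' : ∀ x ∈ (r m).H, Y.lev x = Y.lev D.src := fun x hx => (h.lev_H hx).trans l
  refine ⟨m, (mem_H_or (l' _ (tgt_mem_H _))).imp (fun t x hx => ⟨l' x hx, ?_⟩) fun t x hx =>
    mem_rv_H.2 ⟨l' x hx, ?_⟩⟩
  · exact (hm x hx _ (tgt_mem_H _)).trans t.2
  · exact (hm x hx _ (tgt_mem_H _)).trans (mem_rv_H.1 t).2

lemma eq_or_disjoint {r' : ℕ → Y.Dir} (h' : DRay r') (e : (r 0).src = (r' 0).src) :
    r = r' ∨ ∃ m, Disjoint (r m).H (r' m).H := by
  rw [or_iff_not_imp_right]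
  intro hc
  have key : ∀ m, (r m).src = (r' m).src → r m = r' m := fun m t => by_contra fun ne =>
    hc ⟨m, Set.disjoint_left.2 fun a ha ha' =>
      src_not_mem_H _ ((btw_of_turn t ne ha ha').eq_of_self ▸ ha)⟩
  funext m
  induction m with
  | zero => exact key 0 e
  | succ m ih => exact key _ (by rw [← h.tgt, ← h'.tgt, ih])

end DRay

namespace X4

variable {ι : Type*} {F : Filter ι} {x y : ι → Y.V} {r r' : ℕ → Y.Dir} {C : ℕ}

/-- convergence to the end of a ray -/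
def Cv (F : Filter ι) (x : ι → Y.V) (r : ℕ → Y.Dir) : Prop := ∀ k, ∀ᶠ i in F, x i ∈ (r k).H

lemma Cv.near (h : Cv F x r) (hr : DRay r)
    (e : ∀ᶠ i in F, Y.lev (x i) = Y.lev (y i) ∧ Y.dist (x i) (y i) ≤ C) : Cv F y r := fun k =>
  ((h (k + C)).and e).mono fun _ t => hr.near t.1 t.2.1 t.2.2

lemma Cv.unique [F.NeBot] (h : Cv F x r) (h' : Cv F x r') (hr : DRay r) (hr' : DRay r')
    (e : (r 0).src = (r' 0).src) : r = r' :=
  (hr.eq_or_disjoint hr' e).resolve_right fun ⟨m, hm⟩ =>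
    let ⟨_, t⟩ := ((h m).and (h' m)).exists; Set.disjoint_left.1 hm t.1 t.2

lemma Cv.subset [F.NeBot] (h : Cv F x r) (hr : DRay r) {D : Y.Dir} (e : ∃ᶠ i in F, x i ∈ D.H) :
    ∃ m, (r m).H ⊆ D.H := by
  obtain ⟨i, t1, t2⟩ := (e.and_eventually (h 0)).exists
  obtain ⟨m, t | t⟩ := hr.side D (t2.1.symm.trans t1.1)
  · exact ⟨m, t⟩
  · obtain ⟨i, t1, t2⟩ := (e.and_eventually (h m)).exists
    exact (not_mem_H_both t1 (t t2)).elim

lemma exists_ray (F : Filter ι) [F.NeBot] (x : ι → Y.V) (o : Y.V)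
    (h : ∀ v, Y.lev v = Y.lev o → ∃ c, ∀ᶠ i in F, c ∈ sep v (x i)) :
    ∃ r, DRay r ∧ (r 0).src = o ∧ Cv F x r := by
  have h1 : ∀ v : {v // Y.lev v = Y.lev o}, ∃ D : Y.Dir, D.src = v ∧ ∀ᶠ i in F, x i ∈ D.H := by
    intro ⟨v, hv⟩
    obtain ⟨c, hc⟩ := h v hv
    obtain ⟨i, hi⟩ := hc.exists
    have c1 : Y.Cross v (Dir.tgt (c, c.sd v)) (c, c.sd v) := ⟨(cross_of_mem hi).1, tgt_mem_H _⟩
    obtain ⟨D, h1, h2⟩ := exists_step c1.lev c1.ne
    exact ⟨D, h1, hc.mono fun i hi => h2.mem_H (cross_of_mem hi).btw_tgt⟩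
  choose f f1 f2 using h1
  let g : {v // Y.lev v = Y.lev o} → {v // Y.lev v = Y.lev o} := fun v =>
    ⟨(f v).tgt, by rw [← lev_src_tgt, f1, v.2]⟩
  have e : ∀ k, (f (g^[k] ⟨o, rfl⟩)).tgt = (f (g^[k + 1] ⟨o, rfl⟩)).src := fun k => by
    rw [f1, Function.iterate_succ_apply']
  refine ⟨fun k => f (g^[k] ⟨o, rfl⟩), ⟨e, fun k => H_subset (e k ▸ tgt_mem_H _) ?_⟩, f1 _,
    fun k => f2 _⟩
  refine mem_rv_H_of_not ((lev_src_tgt _).trans (congrArg _ (e k))) fun t => ?_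
  have := step_unique (e' := (f (g^[k] ⟨o, rfl⟩)).rv) (⟨src_mem_rv_H _, t⟩ : Y.Cross _ _ _)
    (e k ▸ (Forest.cross_self _).symm) (e k).symm
  obtain ⟨i, t1, t2⟩ := ((f2 (g^[k] ⟨o, rfl⟩)).and (f2 (g^[k + 1] ⟨o, rfl⟩))).exists
  exact not_mem_H_both t1 (this ▸ t2)

lemma near_seg {a x b a' b' : Y.V} (h : Y.btw a x b) (la : Y.lev a = Y.lev a')
    (lb : Y.lev b = Y.lev b') (ha : Y.dist a a' ≤ C) (hb : Y.dist b b' ≤ C) :
    ∃ x', Y.btw a' x' b' ∧ Y.dist x x' ≤ C := by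
  have l : Y.lev a' = Y.lev b' := la.symm.trans (h.lev3.trans lb)
  rcases h.cover la with t | t
  · exact ⟨a', btw_left l, t.dist_le'.trans ha⟩
  rcases t.cover l with t | t
  · exact ⟨x, t, by simp⟩
  · exact ⟨b', btw_right l, t.symm.dist_le'.trans hb⟩

/-- two points on different sides of a dart: the dart is near both -/
lemma dist_src_le {a b : Y.V} {D : Y.Dir} (ha : a ∈ D.H) (hb : b ∈ D.rv.H) :
    Y.dist b D.src ≤ Y.dist a b :=
  Forest.dist_comm a b ▸ (Cross.btw_src ⟨hb, ha⟩).dist_le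

/-- quasi-isometries with bounded cancellation and finite preimages of edges -/
structure QM (K : Y.V → Z.V) : Prop where
  lev : ∀ a b, Y.lev a = Y.lev b → Z.lev (K a) = Z.lev (K b)
  lip : ∃ Λ, ∀ a b, Y.lev a = Y.lev b → Z.dist (K a) (K b) ≤ Λ * Y.dist a b
  qi : ∃ Λ, ∀ a b, Y.lev a = Y.lev b → Y.dist a b ≤ Λ * Z.dist (K a) (K b) + Λ
  bcc : ∃ C, ∀ a x b, Y.btw a x b → ∃ m, Z.btw (K a) m (K b) ∧ Z.dist (K x) m ≤ C
  fin : ∀ k : Z.E, {c : Y.E | k.sd (K (c.ed false)) ≠ k.sd (K (c.ed true))}.Finite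

lemma QM.of (hd : Function.Surjective d) (k : EMap Y Z) (k' : EMap Z Y)
    (hk : ∀ a, Y.lev (k'.f (k.f a)) = Y.lev a) (γ : G) : QM fun a => γ • k.f a where
  lev a b l := by rw [Z.lev_smul, Z.lev_smul, k.lev_eq l]
  lip := let ⟨Λ, _, h⟩ := k.exists_lip; ⟨Λ, by simpa using h⟩
  qi := let ⟨Λ, h⟩ := k.exists_qi hd k' hk; ⟨Λ, by simpa using h⟩
  bcc := by
    obtain ⟨C, h⟩ := k.exists_bcc hd k' hk
    refine ⟨C, fun a x b t => ?_⟩
    obtain ⟨m, hm⟩ := exists_med (k.lev_eq t.lev3) (k.lev_eq t.lev1)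
    exact ⟨γ • m, hm.1.smul γ, by simpa using h a x b m t hm⟩
  fin c := by
    refine ((k.finite_pre (γ⁻¹ • c)).preimage (f := fun c : Y.E => ((c, false) : Y.Dir))
      fun _ _ _ _ e => congrArg Prod.fst e).subset fun a ha => ?_
    refine (mem_sep (k.lev_dir _)).2 ?_
    simp only [sd_smul', inv_inv]
    exact ha

variable {K : Y.V → Z.V} {ρ : ℕ → Z.Dir}

lemma QM.far (hK : QM K) (o : Y.V) (v : Z.V) (l : Z.lev v = Z.lev (K o)) (R : ℕ) :
    ∃ p, ∀ a, Y.lev o = Y.lev a → p ≤ Y.dist o a → R < Z.dist v (K a) := by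
  obtain ⟨Λ, h⟩ := hK.qi
  refine ⟨Λ * (Z.dist (K o) v + R) + Λ + 1, fun a la ha => not_le.1 fun t => ?_⟩
  have h1 := h o a la
  have h2 := dist_triangle l.symm (l.trans (hK.lev _ _ la))
  have h3 := Nat.mul_le_mul_left Λ (h2.trans (Nat.add_le_add_left t _))
  omega

/-- the image of an end is an end -/
lemma Cv.map [F.NeBot] (h : Cv F x r) (hr : DRay r) (hK : QM K) (o : Z.V)
    (l : Z.lev o = Z.lev (K (r 0).src)) :
    ∃ ρ, DRay ρ ∧ (ρ 0).src = o ∧ Cv F (fun i => K (x i)) ρ := by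
  refine exists_ray F _ o fun v hv => ?_
  obtain ⟨C, hC⟩ := hK.bcc
  obtain ⟨p, hp⟩ := hK.far (r 0).src v (hv.trans l) (C + Z.dist (K (r 0).src) v)
  have h1 := hp (r p).src (hr.lev p).symm (hr.dist0 p).ge
  have lv : Z.lev v = Z.lev (K (r p).src) := (hv.trans l).trans (hK.lev _ _ (hr.lev p).symm)
  obtain ⟨D, rfl, hD⟩ := exists_step lv (by rintro rfl; simp at h1)
  refine ⟨D.1, (h p).mono fun i hi => ?_⟩
  obtain ⟨m, m1, m2⟩ := hC _ _ _ (hr.btw (Nat.zero_le p) hi)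
  obtain ⟨w, w1, w2⟩ := near_seg m1 (hv.trans l).symm rfl le_rfl (by simp)
  have h2 := dist_triangle (lv.symm.trans ((hv.trans l).trans m1.lev1))
    (m1.lev2.trans w1.lev2.symm)
  refine Cross.mem ⟨hD.1, Cross.mem_H ⟨hD.1, mem_H_of_not w1.lev1.symm fun t => ?_⟩ w1⟩
  have h3 := (Cross.btw_src ⟨t, hD.2⟩).dist_le'
  rw [Forest.dist_comm w] at h3
  omega

/-- the image of a ray stays near the ray of the image -/
lemma Cv.ray_near [F.NeBot] {y : ι → Z.V} (h : Cv F x r) (hr : DRay r) (hK : QM K)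
    (h' : Cv F y ρ) (hρ : DRay ρ)
    (e : ∀ᶠ i in F, Z.lev (K (x i)) = Z.lev (y i) ∧ Z.dist (K (x i)) (y i) ≤ C) :
    Z.lev (K (r 0).src) = Z.lev (ρ 0).src ∧
      ∃ C', ∀ N, ∃ p₀, ∀ p ≥ p₀, ∃ m ≥ N, Z.dist (K (r p).src) (ρ m).src ≤ C' := by
  have l : Z.lev (K (r 0).src) = Z.lev (ρ 0).src := by
    obtain ⟨i, ⟨t1, t2⟩, t3⟩ := (((h 0).and (h' 0)).and e).exists
    exact (hK.lev _ _ t1.1.symm).trans (t3.1.trans t2.1)
  obtain ⟨B, hB⟩ := hK.bcc
  set c := max C (Z.dist (K (r 0).src) (ρ 0).src)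
  refine ⟨l, B + c, fun N => ?_⟩
  obtain ⟨p₀, hp⟩ := hK.far (r 0).src (ρ 0).src l.symm (N + (B + c))
  refine ⟨p₀, fun p pp => ?_⟩
  have h1 := hp (r p).src (hr.lev p).symm (by rw [hr.dist0]; exact pp)
  obtain ⟨i, ⟨t1, t2⟩, t3⟩ :=
    (((h p).and (h' (Z.dist (ρ 0).src (K (r p).src) + (B + c)))).and e).exists
  obtain ⟨m, m1, m2⟩ := hB _ _ _ (hr.btw (Nat.zero_le p) t1)
  obtain ⟨w, w1, w2⟩ := near_seg (C := c) m1 l t3.1 (le_max_right _ _)
    (t3.2.trans (le_max_left _ _))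
  have lp : Z.lev (K (r p).src) = Z.lev m := (hK.lev _ _ (hr.lev p)).trans m1.lev1
  have lw : Z.lev m = Z.lev w := m1.lev1.symm.trans (l.trans w1.lev1)
  have h2 := dist_triangle lp lw
  have h3 := dist_triangle (w1.lev1.trans (lp.trans lw).symm) (lp.trans lw)
  have h4 := dist_triangle w1.lev1 (lp.trans lw).symm
  rw [Forest.dist_comm w] at h4
  refine ⟨Z.dist (ρ 0).src w, by omega, ?_⟩
  rw [← hρ.on t2 w1 (by omega)]
  omega

/-- separated ends have separated images -/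
lemma Cv.sep_map [F.NeBot] (hK : QM K) (h : Cv F (fun i => K (x i)) ρ) (hρ : DRay ρ) {D : Y.Dir}
    (e : ∀ᶠ i in F, x i ∈ D.H) : ∃ m, ∀ a ∈ D.rv.H, K a ∉ (ρ m).H := by
  obtain ⟨C, hC⟩ := hK.bcc
  refine ⟨Z.dist (ρ 0).src (K D.src) + C, fun a ha t => ?_⟩
  obtain ⟨i, t1, t2⟩ := (e.and (h (Z.dist (ρ 0).src (K D.src) + C))).exists
  obtain ⟨m, m1, m2⟩ := hC _ _ _ (Cross.btw_src ⟨ha, t1⟩)
  have h1 := hρ.far (m1.mem_H t t2)
  have l := hK.lev _ _ (rv_H_lev ha)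
  have h2 := dist_triangle ((hρ.lev_H t).symm.trans l) (l.symm.trans m1.lev1)
  omega

/-- continuity at an end -/
lemma QM.cont (hK : QM K) (hr : DRay r) (D : Z.Dir) (e : ∀ m, ∃ a ∈ (r m).H, K a ∈ D.H) :
    ∃ m, ∀ a ∈ (r m).H, K a ∈ D.H := by
  obtain ⟨m, hm⟩ := hr.const (fun a => D.1.sd (K a)) (hK.fin _)
  obtain ⟨b, b1, b2⟩ := e m
  exact ⟨m, fun a ha => ⟨(hK.lev _ _ (ha.1.trans b1.1.symm)).trans b2.1, (hm a ha b b1).trans b2.2⟩⟩

end X4

end Pool.Agent.Lib.FBC
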