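import Pool.Agent.Lib.FBC.Blue0
import Pool.Agent.Lib.FBC.Sand
import Pool.Agent.Lib.FBC.T2.Leg

/-!
North-south dynamics: definitions and interface statements.
-/

namespace Pool.Agent.Lib.FBC

open Forest Filter

variable {G : Type} [Group G] {d d' : Dg G} {Y : Forest d}

/-- a geodesic ray of darts -/
structure DRay (r : ℕ → Y.Dir) : Prop where
  tgt : ∀ k, (r k).tgt = (r (k + 1)).src
  anti : ∀ k, (r (k + 1)).H ⊆ (r k).H

namespace X4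

/-- twisted iterates -/
def tw (s : Flow Y) (γ : G) (n j : ℕ) (a : Y.V) : Y.V := γ ^ j • s.σ^[j * n] a

/-- The attracting leaf through the dart `e`, as two rays. -/
structure Leaf (s : Flow Y) (γ : G) (n : ℕ) (e : Y.Dir) (r : Bool → ℕ → Y.Dir) (c : ℕ) :
    Prop where
  pos : 0 < n
  deg : dg d γ = -n
  lev : Y.lev e.src = 0
  ray : ∀ i, DRay (r i)
  zero : r true 0 = e
  rv : ∀ i, r (!i) 0 = (r i 0).rv
  legal : ∀ p q, s.LegalP (r false p).src (r true q).src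
  orbit : ∀ i, ∃ m : ℕ → ℕ, StrictMono m ∧ ∀ k, tw s γ n k (r i 0).tgt = (r i (m k)).src
  grow : ∀ i, ∀ t ≥ c, ∀ u ∈ (r i t).H, tw s γ n 1 u ∈ (r i (t + 1)).H
  attr : ∀ u, Y.lev u = 0 → ∃ j i, tw s γ n j u ∈ (r i c).H

/-- ultrafilters that are never attracted to the ends of the leaf -/
def Lam (s : Flow Y) (γ : G) (n : ℕ) (r : Bool → ℕ → Y.Dir) (c : ℕ) (U : Ultrafilter Y.V) :
    Prop := ∀ j, ∀ᶠ z in (U : Filter Y.V), Y.lev z = 0 ∧ ∀ i, tw s γ n j z ∉ (r i c).H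

/-- the leaf of a generic periodic dart attracts every vertex -/
def St_LEAF : Prop := ∀ (G : Type) [Group G] (d : Dg G), FC d → ∀ (Y : Forest d) (s : Flow Y),
  s.NF → ∀ (g : G) (e : Y.Dir) (n : ℕ), 0 < n → dg d g = n → s.IDesc n e (e.tr g) →
  Y.lev e.src = 0 → ∃ r c, Leaf s g⁻¹ n e r c

/-- every point beyond a long legal segment is attracted, uniformly -/
def St_S1 : Prop := ∀ (G : Type) [Group G] (d : Dg G), FC d → ∀ (Y : Forest d) (s : Flow Y),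
  s.TT → ∀ (γ : G) n e r c, Leaf s γ n e r c → ∃ L, ∀ x y, s.LegalP x y → L ≤ Y.dist x y →
    Y.btw e.src x y → ∃ j i, ∀ z, Y.btw x y z → tw s γ n j z ∈ (r i c).H

/-- a ray of bounded coned-off length ends in the hull of one Nielsen class -/
def St_RAY : Prop := ∀ (G : Type) [Group G] (d : Dg G), FC d → ∀ (Y : Forest d) (s : Flow Y),
  s.NF → ∀ (ρ : ℕ → Y.Dir) (R p : ℕ), DRay ρ → (∀ q ≥ p, s.NL R (ρ p).src (ρ q).src) →
    ∃ w, ∀ m, ∃ w' ∈ (ρ m).H, s.Cls w w'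

/-- non-attracted ultrafilters are ends with illegal rays of infinite coned-off length -/
def St_LAM : Prop := ∀ (G : Type) [Group G] (d : Dg G), FC d → ∀ (Y : Forest d) (s : Flow Y),
  s.NF → ∀ (γ : G) n e r c, Leaf s γ n e r c → ∃ L, ∀ U, Lam s γ n r c U →
    ∃ ρ : ℕ → Y.Dir, DRay ρ ∧ (ρ 0).src = e.src ∧ (∀ k, ∀ᶠ z in (U : Filter Y.V), z ∈ (ρ k).H) ∧
      (∀ p q, s.NoLeg L (ρ p).src (ρ q).src) ∧ ∀ R p, ∃ q ≥ p, ¬ s.NL R (ρ p).src (ρ q).src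

/-- their rays in the forward tree have long legal segments -/
def St_LONG : Prop := ∀ (G : Type) [Group G] (d d' : Dg G), FC d → ∀ X : Pair d d',
  X.s.NF → X.t.NF → ∀ (g : G) n e r c, Leaf X.t g⁻¹ n e r c → ∀ U, Lam X.t g⁻¹ n r c U →
  ∀ ρ : ℕ → X.P.Dir, DRay ρ → (∀ k, ∀ᶠ z in (U : Filter X.M.V), X.h.f z ∈ (ρ k).H) →
    ∀ N L, ∃ p ≥ N, X.s.LegalP (ρ p).src (ρ (p + L)).src

/-- legal paths of the forward tree do not follow the leaf -/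
def St_NOL : Prop := ∀ (G : Type) [Group G] (d d' : Dg G), FC d → ∀ X : Pair d d',
  X.s.TT → X.t.TT → ∀ (g : G) n e r c, Leaf X.t g⁻¹ n e r c → ∀ N, ∃ N', ∀ y z i,
    X.s.LegalP y z → X.P.lev y = 0 → X.h'.f y ∉ (r i N).H → X.h'.f z ∉ (r i N').H

/-- some ultrafilter is not attracted -/
def St_NE : Prop := ∀ (G : Type) [Group G] (d : Dg G), FC d → ∀ (Y : Forest d) (s : Flow Y)
  (γ : G) n e r c, Leaf s γ n e r c → ∃ U, Lam s γ n r c U

/-- attraction in the forward tree from attraction in the backward tree -/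
def St_AP : Prop := ∀ (G : Type) [Group G] (d d' : Dg G), FC d → ∀ X : Pair d d',
  X.s.TT → X.t.TT → ∀ (g : G) n e r c, Leaf X.t g⁻¹ n e r c → ∀ r₀ : ℕ → X.P.Dir, DRay r₀ →
  X.P.lev (r₀ 0).src = 0 →
  (∀ N N', ∃ j₀, ∀ j ≥ j₀, ∀ u, X.M.lev u = 0 → X.h.f u ∉ (r₀ N).H →
    ∃ i, tw X.t g⁻¹ n j u ∈ (r i N').H) →
  ∀ N, ∃ j₀, ∀ j ≥ j₀, ∀ y, X.P.lev y = 0 → (∀ i, X.h'.f y ∉ (r i N).H) →
    tw X.s g n j y ∈ (r₀ N).H

end X4

end Pool.Agent.Lib.FBC
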