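import Pool.Agent.Lib.FBC.X4.KEY
import Pool.Agent.Lib.FBC.X3.NS

/-!
North-south dynamics from the blocks.
-/

namespace Pool.Agent.Lib.FBC.X4

open Forest Filter

lemma dray {G : Type} [Group G] {d : Dg G} {Y : Forest d} {r : ℕ → Y.Dir} (h : FBC.DRay r)
    (l : Y.lev (r 0).src = 0) : Y.DRay r :=
  ⟨h.tgt, ⟨fun k => adj_iff.2 ⟨r k, rfl, h.tgt k⟩, fun _ _ _ => h.btw3⟩, fun k => (h.lev k).trans l⟩

theorem stNS_of (hLEAF : St_LEAF) (hLAM : St_LAM) (hLONG : St_LONG) (hNE : St_NE) (hAP : St_AP) :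
    St_NS := by
  intro G _ d d' hG X hs ht g e n ⟨n', n0, n1, he⟩ l hn hP
  obtain rfl : n' = n := by omega
  obtain ⟨r, c, L⟩ := hLEAF G d' (hG.symm X) _ _ ht g e n' n0 hn he l
  obtain ⟨o, o1, o2⟩ := exists_base hG.surj L
  obtain ⟨L₀, hL⟩ := hLAM G d' (hG.symm X) _ _ ht _ _ _ _ _ L
  have H : Ctx X g n' e r c o :=
    ⟨hG.surj, hs.toTT, L, fun k hk => np L hP hk, o2, o1, fun U hU =>
      let ⟨ξ, x1, x2, x3, _⟩ := hL U hU
      Cv.map (x := id) x3 x1 (h_qm hG.surj X) o (by rw [o1, X.lev_h, x2, l, neg_zero]),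
      hLONG G d d' hG X hs ht g _ _ _ _ L⟩
  obtain ⟨U, hU⟩ := hNE G d' (hG.symm X) _ _ _ _ _ _ _ L
  obtain ⟨ρ, hρ, h0, h⟩ := H.ray U hU
  have aM := H.aM hU hρ h0 h
  refine ⟨ρ, r, dray hρ (h0 ▸ o1), fun i => dray (L.ray i) (L.lev_src i 0),
    hAP G d d' hG X hs.toTT ht.toTT g _ _ _ _ L ρ hρ (h0 ▸ o1) aM, fun N => aM N N,
    H.invP hU hρ h0 h, fun N => ⟨max N c, fun j i u hu => (L.ray i).anti_le
      ((le_max_left N c).trans (Nat.le_add_right _ j)) (L.grow_iter (le_max_right _ _) hu j)⟩, ?_,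
    H.long U hU ρ hρ h, fun i N _ => ⟨N, le_rfl, L.legal_ray i _ _⟩⟩
  obtain ⟨m, hm⟩ := L.sep hG.surj hU hρ h
  obtain ⟨C, hC⟩ := hh' hG.surj X
  refine ⟨m + C + c, Set.disjoint_left.2 fun u h1 h2 => not_mem_H_both h1 (L.mem_rv h2),
    fun y hy i t => hm i _ ((L.ray i).anti_le (by omega) t) (hρ.near (C := C)
      (hρ.anti_le (by omega) hy) (hC y).1.symm ((Forest.dist_comm _ _).trans_le (hC y).2))⟩

end Pool.Agent.Lib.FBC.X4
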