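import Pool.Agent.Lib.FBC.X4.Tw

/-!
Uniqueness of the end that is not attracted to the leaf.
-/

namespace Pool.Agent.Lib.FBC.X4

open Forest Filter

variable {G : Type} [Group G] {d d' : Dg G} {Y : Forest d}

/-- If no edge is crossed by its image, points move towards a dart that is moved forward. -/
lemma arrow {K : Y.V → Y.V} (hl : ∀ a, Y.lev (K a) = Y.lev a)
    (hK : ∀ D : Y.Dir, D.1 ∉ sep (K D.src) (K D.tgt)) {e : Y.Dir} (he : K e.tgt ∈ e.H)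
    {z : Y.V} (l : Y.lev z = Y.lev e.tgt) :
    ∀ D : Y.Dir, D.src = z → Y.Cross z e.tgt D → z ∈ e.rv.H → K z ∈ D.H := by
  refine dir_ind (P := fun z => ∀ D : Y.Dir, D.src = z → Y.Cross z e.tgt D → z ∈ e.rv.H →
    K z ∈ D.H) (fun D _ h => (h.ne rfl).elim) (fun c hc ih D h1 h2 h3 => ?_) l
  obtain rfl := step_unique h2 hc h1
  refine mem_H_of_not (hl _) fun t => hK D (Cross.mem ⟨t, ?_⟩)
  rcases mem_H_or (e := e) ((lev_src_tgt D).symm.trans (rv_H_lev h3)) with t' | t'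
  · have c : Y.Cross D.src D.tgt e := ⟨h3, t'⟩
    obtain rfl := c.unique (Forest.cross_self D) (by simpa [sep_src_tgt] using c.mem)
    exact he
  · obtain ⟨D', d1, d2⟩ := exists_step hc.btw_tgt.lev2 (Cross.ne ⟨t', tgt_mem_H e⟩)
    exact H_subset (d1 ▸ tgt_mem_H D) (d2.extend_left hc.btw_tgt).1 (ih D' d1 d2 t')

lemma arrow2 {K : Y.V → Y.V} (hl : ∀ a, Y.lev (K a) = Y.lev a)
    (hK : ∀ D : Y.Dir, D.1 ∉ sep (K D.src) (K D.tgt)) {e e' : Y.Dir} (he : K e.tgt ∈ e.H)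
    (he' : K e'.tgt ∈ e'.H) (l : Y.lev e.src = Y.lev e'.src) (h : Disjoint e.H e'.H) : False := by
  have l' : Y.lev e'.tgt = Y.lev e.src := (lev_src_tgt _).symm.trans l.symm
  refine not_mem_H_both he' (arrow hl hK he (l'.trans (lev_src_tgt _)) e'.rv rfl
    ⟨by simpa using tgt_mem_H e', ?_⟩ ?_)
  · exact mem_rv_H_of_not ((lev_src_tgt _).symm.trans l) (Set.disjoint_left.1 h (tgt_mem_H e))
  · exact mem_rv_H_of_not l' (Set.disjoint_right.1 h (tgt_mem_H e'))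

variable {X : Pair d d'} {g : G} {n c : ℕ} {e : X.M.Dir} {r : Bool → ℕ → X.M.Dir}

lemma Leaf.degP (L : Leaf X.t g⁻¹ n e r c) : dg d g = -n := by
  have h1 := L.deg
  have h2 := X.neg g
  rw [dg_inv] at h1
  omega

lemma Leaf.cv (L : Leaf X.t g⁻¹ n e r c) (i : Bool) :
    Cv atTop (fun k => tw X.t g⁻¹ n k (r i 0).tgt) (r i) := fun t => by
  obtain ⟨m, m1, m2⟩ := L.orbit i
  exact (eventually_gt_atTop t).mono fun k hk =>
    Set.mem_of_eq_of_mem (m2 k) ((L.ray i).src_mem (hk.trans_le m1.le_apply))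

lemma np (L : Leaf X.t g⁻¹ n e r c) (h : ∀ k : ℕ, 0 < k → ¬ X.s.PP (g⁻¹ ^ k)) {k : ℕ}
    (hk : 0 < k) (D : X.P.Dir) : D.1 ∉ sep (tw X.s g n k D.src) (tw X.s g n k D.tgt) := fun t => by
  refine h k hk ⟨k * n, Nat.mul_pos hk L.pos, by simp [L.degP], Or.inr ⟨D.1, ?_⟩⟩
  rw [tw, tw, mem_sep_smul, ← inv_pow] at t
  obtain ⟨c, _ | _⟩ := D
  · exact t
  · rw [sep_comm]; exact t

/-- a base point between the two ends of the leaf -/
lemma exists_base (hd : Function.Surjective d) (L : Leaf X.t g⁻¹ n e r c) :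
    ∃ o, X.P.lev o = 0 ∧ ∀ (j : ℕ) (D : X.P.Dir), (∀ i, ∀ᶠ k in atTop,
      tw X.s g n j (X.h.f (tw X.t g⁻¹ n k (r i 0).tgt)) ∈ D.H) → o ∈ D.H := by
  have : ∀ i, ∃ α, DRay α ∧ (α 0).src = X.h.f e.src ∧
      Cv atTop (fun k => X.h.f (tw X.t g⁻¹ n k (r i 0).tgt)) α := fun i =>
    (L.cv i).map (L.ray i) (h_qm hd X) _ (by rw [X.lev_h, X.lev_h, L.lev, L.lev_src])
  choose α a1 a2 a3 using this
  obtain ⟨m, hm⟩ := Cv.sep_map (h_qm hd X) (a3 true) (a1 true) (L.cv true 0)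
  have l : X.P.lev (α true m).src = 0 := by rw [(a1 true).lev, a2, X.lev_h, L.lev, neg_zero]
  refine ⟨(α true m).src, l, fun j D hD => ?_⟩
  have : ∀ i, ∀ᶠ k in atTop, X.h.f (tw X.t g⁻¹ n k (r i 0).tgt) ∈ D.H := fun i => by
    obtain ⟨C, hC⟩ := round hd X g n j
    have h1 : Cv atTop (fun k => tw X.s g n j (X.h.f (tw X.t g⁻¹ n (k + j) (r i 0).tgt))) (α i) :=
      (a3 i).near (C := C) (a1 i) (.of_forall fun k => by
        rw [add_comm, tw_add, Forest.dist_comm]; exact ⟨(hC _).1.symm, (hC _).2⟩)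
    obtain ⟨p, hp⟩ := h1.subset (a1 i) ((tendsto_add_atTop_nat j).eventually (hD i)).frequently
    exact (a3 i p).mono fun k hk => hp hk
  obtain ⟨k, ⟨⟨t1, t2⟩, t3⟩, t4⟩ :=
    ((((this true).and (this false)).and (a3 true m)).and (L.cv false 0)).exists
  refine (Cross.btw_src ⟨mem_rv_H_of_not ?_ (hm _ (L.mem_rv t4)), t3⟩).mem_H t2 t1
  rw [l, X.lev_h, L.lev_H t4, neg_zero]

lemma Leaf.sep (hd : Function.Surjective d) (L : Leaf X.t g⁻¹ n e r c) {U : Ultrafilter X.M.V}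
    (hU : Lam X.t g⁻¹ n r c U) {ρ : ℕ → X.P.Dir} (hρ : DRay ρ) (h : Cv U X.h.f ρ) :
    ∃ m, ∀ i, ∀ a ∈ (r i c).H, X.h.f a ∉ (ρ m).H := by
  have : ∀ i, ∃ m, ∀ a ∈ (r i c).rv.rv.H, X.h.f a ∉ (ρ m).H := fun i =>
    Cv.sep_map (x := id) (h_qm hd X) h hρ ((hU 0).mono fun z t =>
      mem_rv_H_of_not (t.1.trans (L.lev_src _ _).symm) (by simpa using t.2 i))
  choose m hm using this
  refine ⟨max (m true) (m false), fun i a ha t => hm i a (by simpa using ha) (hρ.anti_le ?_ t)⟩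
  cases i <;> simp

/-- The data used in the uniqueness proof. -/
structure Ctx (X : Pair d d') (g : G) (n : ℕ) (e : X.M.Dir) (r : Bool → ℕ → X.M.Dir) (c : ℕ)
    (o : X.P.V) : Prop where
  hd : Function.Surjective d
  T : X.s.TT
  L : Leaf X.t g⁻¹ n e r c
  np : ∀ k, 0 < k → ∀ D : X.P.Dir, D.1 ∉ sep (tw X.s g n k D.src) (tw X.s g n k D.tgt)
  base : ∀ (j : ℕ) (D : X.P.Dir), (∀ i, ∀ᶠ k in atTop,
    tw X.s g n j (X.h.f (tw X.t g⁻¹ n k (r i 0).tgt)) ∈ D.H) → o ∈ D.H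
  lev : X.P.lev o = 0
  ray : ∀ U, Lam X.t g⁻¹ n r c U → ∃ ρ, DRay ρ ∧ (ρ 0).src = o ∧ Cv U X.h.f ρ
  long : ∀ U, Lam X.t g⁻¹ n r c U → ∀ ρ, DRay ρ → Cv U X.h.f ρ →
    ∀ N L, ∃ p ≥ N, X.s.LegalP (ρ p).src (ρ (p + L)).src

namespace Ctx

variable {o : X.P.V} (H : Ctx X g n e r c o) {U U' : Ultrafilter X.M.V} {ρ ρ' : ℕ → X.P.Dir}
include H

lemma key0 (hU : Lam X.t g⁻¹ n r c U) (hρ : DRay ρ) (h0 : (ρ 0).src = o) (h : Cv U X.h.f ρ) :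
    ∃ (q : ℕ) (D : ℕ → X.P.Dir),
      (∀ j k, X.P.Cross (tw X.s g n k (D j).src) (tw X.s g n k (D j).tgt) (D (j + k))) ∧
      (∀ j, o ∈ (D j).rv.H) ∧ ∀ j, ∀ z ∈ (ρ q).H, tw X.s g n j z ∈ (D j).H := by
  obtain ⟨C, hC⟩ := pers_dir H.T H.hd
  obtain ⟨m, hm⟩ := H.L.sep H.hd hU hρ h
  obtain ⟨p, p1, p2⟩ := H.long U hU ρ hρ h m (C + 1 + C)
  obtain ⟨ι, i0, i1⟩ := H.T.exists_itin (ρ (p + C))
  have := hC ι _ _ i1 p2 (i0 ▸ ⟨hρ.src_rv (by omega), hρ.src_mem (by omega)⟩)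
    (by rw [i0, hρ.dist_add]) (by rw [i0, hρ.tgt, hρ.dist_sub (by omega)]; omega)
  refine ⟨p + (C + 1 + C), fun j => (ι (j * n)).tr (g ^ j), fun j k => ?_,
    fun j => H.base j _ fun i => (H.L.cv i c).mono fun k hk => ?_, fun j z hz => ?_⟩
  · have := Cross.smul (i1.desc H.T (j * n) (k * n)) (g ^ (j + k))
    simpa [tw, add_mul, pow_add, mul_smul, ← mul_smul (g ^ k), pow_mul_comm g k j] using this
  · rw [rv_tr]
    refine (smul_mem_H _).2 ((this _).1 _ (hρ.btw_of_cross (i := m) (k := p)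
      (mem_rv_H_of_not ?_ (hm i _ hk)) (hρ.src_mem (by omega)) p1 le_rfl))
    rw [X.lev_h, H.L.lev_H hk, hρ.lev, h0, H.lev, neg_zero]
  · exact (smul_mem_H _).2 ((this _).2 _ (hρ.btw (by omega) hz))

lemma on_ray (hρ : DRay ρ) (h0 : (ρ 0).src = o) (h : Cv U X.h.f ρ) {D : X.P.Dir}
    (ho : o ∈ D.rv.H) {j : ℕ}
    (hD : ∀ᶠ z in (U : Filter X.M.V), tw X.s g n j (X.h.f (tw X.t g⁻¹ n j z)) ∈ D.H) :
    ∃ m, D = ρ m := by
  obtain ⟨C, hC⟩ := round H.hd X g n j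
  obtain ⟨m, hm⟩ := (h.near (C := C) hρ (.of_forall fun z =>
    ⟨(hC z).1.symm, (Forest.dist_comm _ _).trans_le (hC z).2⟩)).subset hρ hD.frequently
  exact hρ.eq_of_cross (h0 ▸ ho) hm

lemma escape {D : ℕ → X.P.Dir} (hD : ∀ j k, X.P.Cross (tw X.s g n k (D j).src)
    (tw X.s g n k (D j).tgt) (D (j + k))) (ρ : ℕ → X.P.Dir) (M : ℕ) :
    ∀ᶠ j in atTop, ∀ m, D j = ρ m → M < m := by
  have inj : Function.Injective D := by
    refine Function.Injective.of_lt_imp_ne fun i j hij t => ?_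
    obtain ⟨k, rfl⟩ := Nat.exists_eq_add_of_lt hij
    have := (hD i (k + 1)).mem
    rw [← add_assoc, ← t] at this
    exact H.np _ (by omega) _ this
  rw [← Nat.cofinite_eq_atTop]
  refine (((Set.finite_le_nat M).image ρ).preimage inj.injOn).subset fun j hj => ?_
  simp only [Set.mem_compl_iff, Set.mem_ofPred_eq, not_forall, not_lt] at hj
  obtain ⟨m, t1, t2⟩ := hj
  exact ⟨m, t2, t1.symm⟩

lemma key1 (hU : Lam X.t g⁻¹ n r c U) (hρ : DRay ρ) (h0 : (ρ 0).src = o) (h : Cv U X.h.f ρ) :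
    ∃ D : ℕ → X.P.Dir,
      (∀ j k, X.P.Cross (tw X.s g n k (D j).src) (tw X.s g n k (D j).tgt) (D (j + k))) ∧
      ∀ M, ∀ᶠ j in (hyperfilter ℕ : Filter ℕ), ∃ m > M, D j = ρ m := by
  have hW : Lam X.t g⁻¹ n r c ((hyperfilter ℕ).bind fun j => U.map (tw X.t g⁻¹ n j)) := fun j =>
    eventually_bind.2 (.of_forall fun k => H.L.lam_map hU k j)
  obtain ⟨ξ, x1, x2, x3⟩ := H.ray _ hW
  obtain ⟨q, D, d1, d2, d3⟩ := H.key0 hW x1 x2 x3
  refine ⟨D, d1, fun M => ((eventually_bind.1 (x3 q)).and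
    (Nat.hyperfilter_le_atTop (H.escape d1 ρ M))).mono fun j t => ?_⟩
  obtain ⟨m, hm⟩ := H.on_ray hρ h0 h (d2 j) (Eventually.mono t.1 fun z hz => d3 j _ hz)
  exact ⟨m, t.2 m hm, hm⟩

/-- there is only one end that is not attracted -/
lemma uniq (hU : Lam X.t g⁻¹ n r c U) (hρ : DRay ρ) (h0 : (ρ 0).src = o) (h : Cv U X.h.f ρ)
    (hU' : Lam X.t g⁻¹ n r c U') : Cv U' X.h.f ρ := by
  obtain ⟨ρ', hρ', h0', h'⟩ := H.ray _ hU'
  rcases hρ.eq_or_disjoint hρ' (h0.trans h0'.symm) with rfl | ⟨M, hM⟩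
  · exact h'
  obtain ⟨D, d1, d2⟩ := H.key1 hU hρ h0 h
  obtain ⟨D', d1', d2'⟩ := H.key1 hU' hρ' h0' h'
  obtain ⟨j, ⟨m, m1, m2⟩, m', m1', m2'⟩ := ((d2 M).and (d2' M)).exists
  obtain ⟨j', ⟨⟨p, p1, p2⟩, p', p1', p2'⟩, hj⟩ := (((d2 m).and (d2' m')).and
    (Nat.hyperfilter_le_atTop (eventually_gt_atTop j))).exists
  obtain ⟨k, rfl⟩ := Nat.exists_eq_add_of_lt hj
  have t1 := (d1 j (k + 1)).2
  have t2 := (d1' j (k + 1)).2
  rw [← add_assoc, p2, m2] at t1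
  rw [← add_assoc, p2', m2'] at t2
  exact (arrow2 (lev_tw H.L.degP _) (H.np _ k.succ_pos) (hρ.anti_le p1.le t1)
    (hρ'.anti_le p1'.le t2) (by rw [hρ.lev, hρ'.lev, h0, h0'])
    (hM.mono (hρ.anti_le m1.le) (hρ'.anti_le m1'.le))).elim

lemma invP (hU : Lam X.t g⁻¹ n r c U) (hρ : DRay ρ) (h0 : (ρ 0).src = o) (h : Cv U X.h.f ρ)
    (N : ℕ) : ∃ m, ∀ j, ∀ y ∈ (ρ m).H, tw X.s g n j y ∈ (ρ N).H := by
  have h1 : ∀ j, Cv U (fun z => X.h.f (tw X.t g⁻¹ n j z)) ρ := fun j =>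
    H.uniq hU hρ h0 h (H.L.lam_map hU j)
  obtain ⟨q, D, d1, d2, d3⟩ := H.key0 hU hρ h0 h
  obtain ⟨j₀, hj⟩ := eventually_atTop.1 (H.escape d1 ρ N)
  have : ∀ j, ∃ m, ∀ y ∈ (ρ m).H, tw X.s g n j y ∈ (ρ N).H := fun j => by
    refine (tw_qm H.hd _ _ _ _).cont hρ _ fun m => ?_
    obtain ⟨C, hC⟩ := round H.hd X g n j
    obtain ⟨z, t1, t2⟩ := ((h1 j m).and (h (N + C))).exists
    exact ⟨_, t1, hρ.near t2 (hC z).1.symm ((Forest.dist_comm _ _).trans_le (hC z).2)⟩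
  choose m hm using this
  refine ⟨max q ((Finset.range j₀).sup m), fun j y hy => ?_⟩
  rcases lt_or_ge j j₀ with t | t
  · exact hm j y (hρ.anti_le (le_max_of_le_right (Finset.le_sup (Finset.mem_range.2 t))) hy)
  · obtain ⟨p, hp⟩ := H.on_ray hρ h0 h (d2 j) ((h1 j q).mono fun z hz => d3 j _ hz)
    exact hρ.anti_le (hj j t p hp).le (hp ▸ d3 j y (hρ.anti_le (le_max_left _ _) hy))

lemma aM (hU : Lam X.t g⁻¹ n r c U) (hρ : DRay ρ) (h0 : (ρ 0).src = o) (h : Cv U X.h.f ρ)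
    (N N' : ℕ) : ∃ j₀, ∀ j ≥ j₀, ∀ u, X.M.lev u = 0 → X.h.f u ∉ (ρ N).H →
      ∃ i, tw X.t g⁻¹ n j u ∈ (r i N').H := by
  have grow : ∀ {j j' t i u}, tw X.t g⁻¹ n j u ∈ (r i c).H → j + t ≤ j' + c →  j ≤ j' →
      tw X.t g⁻¹ n j' u ∈ (r i t).H := fun {j j' t i u} a b b' => by
    obtain ⟨k, rfl⟩ := Nat.exists_eq_add_of_le' b'
    exact tw_add k j u ▸ (H.L.ray i).anti_le (by omega) (H.L.grow_iter le_rfl a k)
  have : ∃ j, ∀ u, X.M.lev u = 0 → X.h.f u ∉ (ρ N).H → ∃ i, tw X.t g⁻¹ n j u ∈ (r i c).H := by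
    by_contra hc
    push Not at hc
    choose u u1 u2 u3 using hc
    have hW : Lam X.t g⁻¹ n r c ((hyperfilter ℕ).map u) := fun j =>
      Nat.hyperfilter_le_atTop ((eventually_ge_atTop j).mono fun k hk =>
        ⟨u1 k, fun i t => u3 k i (grow t (by omega) hk)⟩)
    obtain ⟨k, hk⟩ := Eventually.exists (f := (hyperfilter ℕ : Filter ℕ)) (H.uniq hU hρ h0 h hW N)
    exact u2 k hk
  obtain ⟨j, hj⟩ := this
  exact ⟨j + N', fun j' t u u1 u2 => (hj u u1 u2).imp fun i a => grow a (by omega) (by omega)⟩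

end Ctx

end Pool.Agent.Lib.FBC.X4
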